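import Mathlib

/-!
Euclidean norm and inner product of plain complex vectors.
-/

set_option linter.unusedSectionVars false

namespace Pool.Agent.MP_36f78e_lc.H24

open Finset

variable {κ : Type*} [Fintype κ]

/-- Squared Euclidean norm. -/
noncomputable def nsq (v : κ → ℂ) : ℝ := ∑ i, ‖v i‖ ^ 2

/-- Euclidean norm. -/
noncomputable def nr (v : κ → ℂ) : ℝ := √(nsq v)

/-- Inner product, conjugate linear in the first slot. -/
noncomputable def ip (u v : κ → ℂ) : ℂ := ∑ i, (starRingEnd ℂ) (u i) * v i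

lemma nsq_nonneg (v : κ → ℂ) : 0 ≤ nsq v := sum_nonneg fun _ _ => sq_nonneg _

lemma nr_nonneg (v : κ → ℂ) : 0 ≤ nr v := Real.sqrt_nonneg _

lemma nr_sq (v : κ → ℂ) : nr v ^ 2 = nsq v := Real.sq_sqrt (nsq_nonneg v)

lemma nr_eq (v : κ → ℂ) : nr v = ‖(WithLp.toLp 2 v : EuclideanSpace ℂ κ)‖ := by
  rw [EuclideanSpace.norm_eq]; rfl

lemma ip_eq (u v : κ → ℂ) :
    ip u v = inner ℂ (WithLp.toLp 2 u : EuclideanSpace ℂ κ) (WithLp.toLp 2 v) := by
  rw [PiLp.inner_apply]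
  refine sum_congr rfl fun i _ => ?_
  simp [mul_comm]

lemma nr_add_le (u v : κ → ℂ) : nr (u + v) ≤ nr u + nr v := by
  simp only [nr_eq, WithLp.toLp_add]; exact norm_add_le _ _

lemma nr_smul (a : ℂ) (v : κ → ℂ) : nr (a • v) = ‖a‖ * nr v := by
  simp only [nr_eq, WithLp.toLp_smul]; exact norm_smul _ _

lemma nr_neg (v : κ → ℂ) : nr (-v) = nr v := by
  simp only [nr_eq, WithLp.toLp_neg]; exact norm_neg _

lemma nr_sub_le (u v : κ → ℂ) : nr (u - v) ≤ nr u + nr v := by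
  rw [sub_eq_add_neg]; exact (nr_add_le _ _).trans (by rw [nr_neg])

lemma nr_zero : nr (0 : κ → ℂ) = 0 := by simp [nr, nsq]

lemma norm_ip_le (u v : κ → ℂ) : ‖ip u v‖ ≤ nr u * nr v := by
  rw [ip_eq, nr_eq, nr_eq]; exact norm_inner_le_norm _ _

lemma ip_self (v : κ → ℂ) : ip v v = (nsq v : ℂ) := by
  unfold ip nsq
  push_cast
  refine sum_congr rfl fun i _ => ?_
  rw [Complex.conj_mul']

lemma re_ip_self (v : κ → ℂ) : (ip v v).re = nsq v := by rw [ip_self]; simp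

lemma ip_add_right (u v w : κ → ℂ) : ip u (v + w) = ip u v + ip u w := by
  simp [ip, mul_add, sum_add_distrib]

lemma ip_add_left (u v w : κ → ℂ) : ip (u + v) w = ip u w + ip v w := by
  simp [ip, add_mul, sum_add_distrib]

lemma ip_smul_right (a : ℂ) (u v : κ → ℂ) : ip u (a • v) = a * ip u v := by
  simp [ip, mul_sum, mul_left_comm]

lemma ip_smul_left (a : ℂ) (u v : κ → ℂ) : ip (a • u) v = (starRingEnd ℂ) a * ip u v := by
  simp [ip, mul_sum, mul_assoc]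

lemma ip_conj (u v : κ → ℂ) : (starRingEnd ℂ) (ip u v) = ip v u := by
  simp [ip, mul_comm]

lemma re_ip_comm (u v : κ → ℂ) : (ip u v).re = (ip v u).re := by
  rw [← ip_conj u v]; simp

lemma nsq_add_smul (u v : κ → ℂ) (t : ℝ) :
    nsq (u + (t : ℂ) • v) = nsq u + 2 * t * (ip u v).re + t ^ 2 * nsq v := by
  rw [← re_ip_self, ip_add_left, ip_add_right, ip_add_right, ip_smul_left, ip_smul_left,
    ip_smul_right, ip_smul_right, ip_self, ip_self]
  simp [re_ip_comm v u]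
  ring

lemma nr_le_of_nsq {κ' : Type*} [Fintype κ'] (u : κ → ℂ) (v : κ' → ℂ) (a : ℝ) (ha : 0 ≤ a)
    (h : nsq u ≤ a ^ 2 * nsq v) : nr u ≤ a * nr v := by
  apply Real.sqrt_le_iff.2
  refine ⟨mul_nonneg ha (nr_nonneg v), ?_⟩
  rw [mul_pow, nr_sq]; exact h

lemma nsq_le_of_nr {κ' : Type*} [Fintype κ'] (u : κ → ℂ) (v : κ' → ℂ) (h : nr u ≤ nr v) :
    nsq u ≤ nsq v := by
  rw [← nr_sq, ← nr_sq]; exact pow_le_pow_left₀ (nr_nonneg u) h 2

lemma ip_mulVec {κ' : Type*} [Fintype κ'] (A : Matrix κ κ' ℂ) (u : κ → ℂ) (v : κ' → ℂ) :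
    ip u (A.mulVec v) = ip (A.conjTranspose.mulVec u) v := by
  simp only [ip, Matrix.mulVec, dotProduct, Matrix.conjTranspose_apply, map_sum, map_mul,
    mul_sum, sum_mul, RCLike.star_def, Complex.conj_conj]
  rw [sum_comm]
  refine sum_congr rfl fun i _ => sum_congr rfl fun j _ => by ring

lemma nr_unitary [DecidableEq κ] (A : Matrix κ κ ℂ) (hA : A.conjTranspose * A = 1) (v : κ → ℂ) :
    nr (A.mulVec v) = nr v := by
  unfold nr
  rw [← re_ip_self, ip_mulVec, Matrix.mulVec_mulVec, hA, Matrix.one_mulVec, re_ip_self]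

/-- A bound for an adjoint map. -/
lemma nr_adj_le {κ' : Type*} [Fintype κ'] (c : κ → ℂ) (d : κ' → ℂ) (pd : κ → ℂ) (a : ℝ)
    (ha : 0 ≤ a) (hadj : ip c pd = ip d d) (h : nr pd ≤ a * nr d) : nr d ≤ a * nr c := by
  have h1 : nsq d ≤ nr c * (a * nr d) := by
    rw [← re_ip_self, ← hadj]
    exact (Complex.re_le_norm _).trans
      ((norm_ip_le _ _).trans (mul_le_mul_of_nonneg_left h (nr_nonneg c)))
  rw [← nr_sq] at h1
  rcases (nr_nonneg d).eq_or_lt with h0 | h0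
  · rw [← h0]; exact mul_nonneg ha (nr_nonneg c)
  · have : nr d * nr d ≤ (a * nr c) * nr d := by nlinarith
    exact le_of_mul_le_mul_right this h0

lemma nr_refl_le {κ' : Type*} [Fintype κ'] (c : κ → ℂ) (d : κ' → ℂ) (pd : κ → ℂ)
    (hadj : ip c pd = ip d d) (h : nr pd ≤ nr d) : nr (c - (2 : ℂ) • pd) ≤ nr c := by
  have h1 := nsq_add_smul c pd (-2)
  rw [hadj, re_ip_self] at h1
  have h2 := nsq_le_of_nr _ _ h
  have e : c - (2 : ℂ) • pd = c + ((-2 : ℝ) : ℂ) • pd := by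
    rw [sub_eq_add_neg, ← neg_smul]; norm_num
  rw [e]
  apply Real.sqrt_le_sqrt
  rw [h1]; nlinarith

lemma nr_comp_equiv {κ' : Type*} [Fintype κ'] (e : κ' ≃ κ) (v : κ → ℂ) :
    nr (fun i => v (e i)) = nr v := by
  unfold nr nsq
  rw [Equiv.sum_comp e (fun i => ‖v i‖ ^ 2)]

end Pool.Agent.MP_36f78e_lc.H24
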