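import Mathlib

/-!
Hypercontractivity on the discrete cube, in coefficient form, with a crude constant.
-/

set_option linter.unusedSectionVars false

namespace Pool.Agent.MP_36f78e_lc.H24

open Finset

/-- The sign attached to a bit. -/
def sg (b : Bool) : ℝ := if b then -1 else 1

lemma sg_sq (b : Bool) : sg b * sg b = 1 := by cases b <;> simp [sg]

lemma sg_not (b : Bool) : sg (!b) = - sg b := by cases b <;> simp [sg]

lemma two_point_aux (A B c R : ℝ) (hR : 0 < R) (hR2 : R ^ 2 = A ^ 2 + c * B ^ 2) (hc : 0 ≤ c)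
    (m : ℕ) (hm : 2 * (m : ℝ) ≤ c) :
    |((A + B) ^ m + (A - B) ^ m) / 2| ≤ R ^ m ∧
      |((A + B) ^ m - (A - B) ^ m) / 2| * R ≤ m * |B| * R ^ m := by
  induction m with
  | zero => simp
  | succ m ih =>
    have hm' : 2 * (m : ℝ) ≤ c := by push_cast at hm; linarith
    obtain ⟨h1, h2⟩ := ih hm'
    set S := ((A + B) ^ m + (A - B) ^ m) / 2 with hS
    set D := ((A + B) ^ m - (A - B) ^ m) / 2 with hD
    have e1 : ((A + B) ^ (m + 1) + (A - B) ^ (m + 1)) / 2 = A * S + B * D := by
      rw [hS, hD]; ring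
    have e2 : ((A + B) ^ (m + 1) - (A - B) ^ (m + 1)) / 2 = A * D + B * S := by
      rw [hS, hD]; ring
    have hAR : |A| ≤ R := by
      apply abs_le_of_sq_le_sq' _ hR.le |> fun h => abs_le.2 h
      nlinarith [sq_nonneg B]
    have hRm : 0 < R ^ m := pow_pos hR m
    have hA0 := abs_nonneg A
    have hB0 := abs_nonneg B
    have hS0 := abs_nonneg S
    have hD0 := abs_nonneg D
    have hBB : |B| * |B| = B ^ 2 := by rw [← sq, sq_abs]
    have hAA : |A| * |A| = A ^ 2 := by rw [← sq, sq_abs]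
    constructor
    · rw [e1]
      have t1 : |A * S + B * D| ≤ |A| * |S| + |B| * |D| := by
        rw [← abs_mul, ← abs_mul]; exact abs_add_le _ _
      have t2 : |A| * |S| ≤ |A| * R ^ m := mul_le_mul_of_nonneg_left h1 hA0
      have t3 : |B| * (|D| * R) ≤ |B| * (m * |B| * R ^ m) := mul_le_mul_of_nonneg_left h2 hB0
      have t4 : |A| * R + m * B ^ 2 ≤ R ^ 2 := by
        nlinarith [sq_nonneg (R - |A|), sq_nonneg B]
      have t5 : (|A| * |S| + |B| * |D|) * R ≤ R ^ (m + 1) * R := by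
        have : (|A| * R + m * B ^ 2) * R ^ m ≤ R ^ 2 * R ^ m :=
          mul_le_mul_of_nonneg_right t4 hRm.le
        have t6 : |A| * |S| * R ≤ |A| * R ^ m * R := mul_le_mul_of_nonneg_right t2 hR.le
        calc (|A| * |S| + |B| * |D|) * R = |A| * |S| * R + |B| * (|D| * R) := by ring
          _ ≤ |A| * R ^ m * R + |B| * (m * |B| * R ^ m) := add_le_add t6 t3
          _ = (|A| * R + m * (|B| * |B|)) * R ^ m := by ring
          _ = (|A| * R + m * B ^ 2) * R ^ m := by rw [hBB]
          _ ≤ R ^ 2 * R ^ m := this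
          _ = R ^ (m + 1) * R := by ring
      exact t1.trans (le_of_mul_le_mul_right t5 hR)
    · rw [e2]
      have t1 : |A * D + B * S| ≤ |A| * |D| + |B| * |S| := by
        rw [← abs_mul, ← abs_mul]; exact abs_add_le _ _
      have t2 : |A| * (|D| * R) ≤ R * (m * |B| * R ^ m) :=
        mul_le_mul hAR h2 (by positivity) hR.le
      have t3 : |B| * |S| ≤ |B| * R ^ m := mul_le_mul_of_nonneg_left h1 hB0
      calc |A * D + B * S| * R ≤ (|A| * |D| + |B| * |S|) * R :=
            mul_le_mul_of_nonneg_right t1 hR.le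
        _ = |A| * (|D| * R) + |B| * |S| * R := by ring
        _ ≤ R * (m * |B| * R ^ m) + |B| * R ^ m * R :=
            add_le_add t2 (mul_le_mul_of_nonneg_right t3 hR.le)
        _ = ((m + 1 : ℕ) : ℝ) * |B| * R ^ (m + 1) := by push_cast; ring

lemma two_point (A B : ℝ) (k : ℕ) (hk : 1 ≤ k) :
    (A + B) ^ (2 * k) + (A - B) ^ (2 * k) ≤ 2 * (A ^ 2 + 4 * k * B ^ 2) ^ k := by
  have hk' : (1 : ℝ) ≤ k := by exact_mod_cast hk
  have h0 : 0 ≤ A ^ 2 + 4 * k * B ^ 2 := by positivity
  rcases h0.eq_or_lt with h | h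
  · have hA : A = 0 := by nlinarith [sq_nonneg A, sq_nonneg B]
    have hB : B = 0 := by
      have : B ^ 2 = 0 := by nlinarith [sq_nonneg A, sq_nonneg B]
      simpa using this
    subst hA hB
    have : 2 * k ≠ 0 := by omega
    have h2 : k ≠ 0 := by omega
    simp [this, h2]
  · have hR := Real.sqrt_pos.2 h
    have := (two_point_aux A B (4 * k) _ hR (Real.sq_sqrt h0) (by positivity) (2 * k)
      (by push_cast; linarith)).1
    rw [pow_mul (√_), Real.sq_sqrt h0] at this
    have := (abs_le.1 this).2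
    linarith

lemma mink {F : Type*} [Fintype F] (u v : F → ℝ) (hu : ∀ i, 0 ≤ u i) (hv : ∀ i, 0 ≤ v i)
    (M a b : ℝ) (hM : 0 ≤ M) (ha : 0 ≤ a) (hb : 0 ≤ b) (k : ℕ) (hk : 1 ≤ k)
    (h1 : ∑ i, u i ^ k ≤ M * a ^ k) (h2 : ∑ i, v i ^ k ≤ M * b ^ k) :
    ∑ i, (u i + v i) ^ k ≤ M * (a + b) ^ k := by
  have hk' : (1 : ℝ) ≤ k := by exact_mod_cast hk
  have hk0 : k ≠ 0 := by omega
  have key := Real.Lp_add_le_of_nonneg (s := univ) (f := u) (g := v) hk' (fun i _ => hu i)
    (fun i _ => hv i)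
  simp only [Real.rpow_natCast, one_div] at key
  have root : ∀ (w : F → ℝ) (c : ℝ), (∀ i, 0 ≤ w i) → 0 ≤ c → ∑ i, w i ^ k ≤ M * c ^ k →
      (∑ i, w i ^ k) ^ ((k : ℝ)⁻¹) ≤ M ^ ((k : ℝ)⁻¹) * c := by
    intro w c hw hc h
    have h0 : 0 ≤ ∑ i, w i ^ k := sum_nonneg fun i _ => pow_nonneg (hw i) k
    calc (∑ i, w i ^ k) ^ ((k : ℝ)⁻¹) ≤ (M * c ^ k) ^ ((k : ℝ)⁻¹) :=
          Real.rpow_le_rpow h0 h (by positivity)
      _ = M ^ ((k : ℝ)⁻¹) * c := by
          rw [Real.mul_rpow hM (pow_nonneg hc k), Real.pow_rpow_inv_natCast hc hk0]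
  have h3 : (∑ i, (u i + v i) ^ k) ^ ((k : ℝ)⁻¹) ≤ M ^ ((k : ℝ)⁻¹) * (a + b) := by
    have := add_le_add (root u a hu ha h1) (root v b hv hb h2)
    linarith
  have h0 : 0 ≤ ∑ i, (u i + v i) ^ k :=
    sum_nonneg fun i _ => pow_nonneg (add_nonneg (hu i) (hv i)) k
  have h4 := pow_le_pow_left₀ (by positivity) h3 k
  rwa [Real.rpow_inv_natCast_pow h0 hk0, mul_pow, Real.rpow_inv_natCast_pow hM hk0] at h4

variable {ι : Type*} [Fintype ι] [DecidableEq ι]

/-- The character of a set of coordinates. -/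
def chi (S : Finset ι) (f : ι → Bool) : ℝ := ∏ x ∈ S, sg (f x)

/-- Flip one coordinate. -/
def flipAt (x : ι) (f : ι → Bool) : ι → Bool := Function.update f x (!f x)

lemma flipAt_invol (x : ι) : Function.Involutive (flipAt x) := by
  intro f
  funext y
  by_cases h : y = x
  · subst h; simp [flipAt]
  · simp [flipAt, h]

lemma chi_flipAt (S : Finset ι) (x : ι) (hx : x ∉ S) (f : ι → Bool) :
    chi S (flipAt x f) = chi S f := by
  unfold chi
  refine prod_congr rfl fun y hy => ?_
  have : y ≠ x := fun h => hx (h ▸ hy)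
  simp [flipAt, this]

lemma hyper_aux (k : ℕ) (hk : 1 ≤ k) (s : Finset ι) (c : Finset ι → ℝ) :
    ∑ f : ι → Bool, (∑ S ∈ s.powerset, c S * chi S f) ^ (2 * k) ≤
      (Fintype.card (ι → Bool) : ℝ) * (∑ S ∈ s.powerset, (4 * k : ℝ) ^ S.card * c S ^ 2) ^ k := by
  induction s using Finset.induction_on generalizing c with
  | empty =>
    simp [chi, ← pow_mul]
  | insert x s hx ih =>
    set A : (ι → Bool) → ℝ := fun f => ∑ S ∈ s.powerset, c S * chi S f with hA
    set B : (ι → Bool) → ℝ := fun f => ∑ S ∈ s.powerset, c (insert x S) * chi S f with hB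
    have hnot : ∀ S ∈ s.powerset, x ∉ S := fun S hS h => hx (mem_powerset.1 hS h)
    have e1 : ∀ f, ∑ S ∈ (insert x s).powerset, c S * chi S f = A f + sg (f x) * B f := by
      intro f
      rw [sum_powerset_insert hx, hB]
      simp only [mul_sum]
      congr 1
      refine sum_congr rfl fun S hS => ?_
      unfold chi
      rw [prod_insert (hnot S hS)]; ring
    have e2 : ∑ S ∈ (insert x s).powerset, (4 * k : ℝ) ^ S.card * c S ^ 2 =
        ∑ S ∈ s.powerset, (4 * k : ℝ) ^ S.card * c S ^ 2 +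
          4 * k * ∑ S ∈ s.powerset, (4 * k : ℝ) ^ S.card * c (insert x S) ^ 2 := by
      rw [sum_powerset_insert hx, mul_sum]
      congr 1
      refine sum_congr rfl fun S hS => ?_
      rw [card_insert_of_notMem (hnot S hS)]; ring
    have hAf : ∀ f, A (flipAt x f) = A f := fun f =>
      sum_congr rfl fun S hS => by rw [chi_flipAt S x (hnot S hS)]
    have hBf : ∀ f, B (flipAt x f) = B f := fun f =>
      sum_congr rfl fun S hS => by rw [chi_flipAt S x (hnot S hS)]
    simp only [e1, e2]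
    have e3 : ∑ f : ι → Bool, (A f + sg (f x) * B f) ^ (2 * k) =
        ∑ f : ι → Bool, (A f - sg (f x) * B f) ^ (2 * k) := by
      rw [← Equiv.sum_comp (flipAt_invol x).toPerm]
      refine sum_congr rfl fun f _ => ?_
      simp only [Function.Involutive.coe_toPerm, hAf, hBf]
      have : flipAt x f x = !f x := by simp [flipAt]
      rw [this, sg_not]; ring
    have e4 : 2 * ∑ f : ι → Bool, (A f + sg (f x) * B f) ^ (2 * k) ≤
        2 * ∑ f : ι → Bool, (A f ^ 2 + 4 * k * B f ^ 2) ^ k := by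
      rw [two_mul]
      nth_rewrite 2 [e3]
      rw [← sum_add_distrib, mul_sum]
      refine sum_le_sum fun f _ => ?_
      have := two_point (A f) (sg (f x) * B f) k hk
      have h2 : (sg (f x) * B f) ^ 2 = B f ^ 2 := by
        rw [mul_pow, sq (sg _), sg_sq, one_mul]
      rwa [h2] at this
    have e5 := mink (fun f => A f ^ 2) (fun f => 4 * k * B f ^ 2) (fun f => sq_nonneg _)
      (fun f => by positivity) (Fintype.card (ι → Bool) : ℝ)
      (∑ S ∈ s.powerset, (4 * k : ℝ) ^ S.card * c S ^ 2)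
      (4 * k * ∑ S ∈ s.powerset, (4 * k : ℝ) ^ S.card * c (insert x S) ^ 2) (by positivity)
      (by positivity) (by positivity) k hk
      (by simpa only [← pow_mul] using ih c)
      (by
        have := ih (fun S => c (insert x S))
        simp only [mul_pow (4 * k : ℝ), ← mul_sum, ← pow_mul]
        rw [mul_left_comm]
        exact mul_le_mul_of_nonneg_left this (by positivity))
    linarith

/-- Hypercontractivity: the `2k`-th moment of a function on the cube is bounded by the weighted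
sum of squares of its coefficients. -/
lemma hyper (k : ℕ) (hk : 1 ≤ k) (c : Finset ι → ℝ) :
    ∑ f : ι → Bool, (∑ S, c S * chi S f) ^ (2 * k) ≤
      (Fintype.card (ι → Bool) : ℝ) * (∑ S, (4 * k : ℝ) ^ S.card * c S ^ 2) ^ k := by
  simpa only [powerset_univ] using hyper_aux k hk univ c

/-- Correlation with a `[0,1]`-valued function. -/
lemma corr_le (k : ℕ) (hk : 1 ≤ k) (c : Finset ι → ℝ) (l : (ι → Bool) → ℝ)
    (hl0 : ∀ f, 0 ≤ l f) (hl1 : ∀ f, l f ≤ 1) (β : ℝ) (hβ : 0 ≤ β)
    (hc : ∑ S, (4 * k : ℝ) ^ S.card * c S ^ 2 ≤ β ^ 2) :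
    ∑ f : ι → Bool, (∑ S, c S * chi S f) * l f ≤
      2 * β * (∑ f, l f + (Fintype.card (ι → Bool) : ℝ) / 4 ^ k) := by
  set b : (ι → Bool) → ℝ := fun f => ∑ S, c S * chi S f with hb
  set M : ℝ := (Fintype.card (ι → Bool) : ℝ) with hM
  have hM0 : 0 ≤ M := by positivity
  have h1 : ∑ f, b f ^ (2 * k) ≤ M * β ^ (2 * k) := by
    refine (hyper k hk c).trans (mul_le_mul_of_nonneg_left ?_ hM0)
    rw [pow_mul]
    exact pow_le_pow_left₀ (by positivity) hc k
  have hev : ∀ f, 0 ≤ b f ^ (2 * k) := fun f => by rw [pow_mul]; positivity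
  rcases hβ.eq_or_lt with h0 | hpos
  · subst h0
    have hz : ∀ f, b f = 0 := by
      intro f
      have h2 : ∑ f, b f ^ (2 * k) = 0 := by
        apply le_antisymm _ (sum_nonneg fun f _ => hev f)
        rw [zero_pow (by omega), mul_zero] at h1; exact h1
      have := (sum_eq_zero_iff_of_nonneg fun f _ => hev f).1 h2 f (mem_univ f)
      exact pow_eq_zero_iff (by omega) |>.1 this
    change ∑ f, b f * l f ≤ _
    simp [hz]
  · obtain ⟨j, hj⟩ : ∃ j, 2 * k = j + 1 := ⟨2 * k - 1, by omega⟩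
    have hθ : 0 < 2 * β := by linarith
    have hpt : ∀ f, b f * l f ≤ 2 * β * l f + b f ^ (2 * k) / (2 * β) ^ j := by
      intro f
      have hq : 0 ≤ b f ^ (2 * k) / (2 * β) ^ j := div_nonneg (hev f) (by positivity)
      by_cases h : b f ≤ 2 * β
      · have := mul_le_mul_of_nonneg_right h (hl0 f)
        linarith
      · push Not at h
        have h3 : b f ≤ b f ^ (2 * k) / (2 * β) ^ j := by
          rw [le_div_iff₀ (by positivity), hj, pow_succ, mul_comm (b f ^ j)]
          exact mul_le_mul_of_nonneg_left (pow_le_pow_left₀ hθ.le h.le j) (by linarith)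
        have h4 : b f * l f ≤ b f := by
          have := mul_le_mul_of_nonneg_left (hl1 f) (show 0 ≤ b f by linarith)
          linarith
        have := mul_nonneg hθ.le (hl0 f)
        linarith
    calc ∑ f, b f * l f ≤ ∑ f, (2 * β * l f + b f ^ (2 * k) / (2 * β) ^ j) :=
          sum_le_sum fun f _ => hpt f
      _ = 2 * β * ∑ f, l f + (∑ f, b f ^ (2 * k)) / (2 * β) ^ j := by
          rw [sum_add_distrib, mul_sum, sum_div]
      _ ≤ 2 * β * ∑ f, l f + M * β ^ (2 * k) / (2 * β) ^ j := by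
          gcongr
      _ = 2 * β * (∑ f, l f + M / 4 ^ k) := by
          have h4 : (4 : ℝ) ^ k = 2 ^ (j + 1) := by
            rw [← hj, pow_mul]; norm_num
          rw [h4, hj]
          field_simp
          ring

end Pool.Agent.MP_36f78e_lc.H24
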