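import Mathlib
import Pool.Agent.MP_36f78e_lc.H24.Hyper
import Pool.Agent.MP_36f78e_lc.H24.Norm

/-!
The action of one oracle call on weighted Fourier coefficients.
-/

set_option linter.unusedSectionVars false

namespace Pool.Agent.MP_36f78e_lc.H24

open Finset

variable {ι : Type*} [Fintype ι] [DecidableEq ι] {R : Type*} [Fintype R]

/-- Toggle the membership of `x`. -/
def tog (x : ι) (S : Finset ι) : Finset ι := if x ∈ S then S.erase x else insert x S

lemma tog_invol (x : ι) : Function.Involutive (tog x) := by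
  intro S
  by_cases h : x ∈ S
  · simp [tog, h]
  · simp [tog, h]

lemma mem_tog (x : ι) (S : Finset ι) : x ∈ tog x S ↔ x ∉ S := by
  by_cases h : x ∈ S <;> simp [tog, h]

lemma card_le_tog (x : ι) (S : Finset ι) : S.card ≤ (tog x S).card + 1 := by
  by_cases h : x ∈ S
  · simp only [tog, h, if_true, card_erase_of_mem h]; omega
  · simp only [tog, h, if_false, card_insert_of_notMem h]; omega

lemma sum_tog {M : Type*} [AddCommMonoid M] (x : ι) (F : Finset ι → M) :
    ∑ S, F (tog x S) = ∑ S, F S :=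
  Equiv.sum_comp (tog_invol x).toPerm F

/-- Coefficients vanish above level `D`. -/
def Supp {H : Type*} (D : ℕ) (c : Finset ι × H → ℂ) : Prop := ∀ S h, D < S.card → c (S, h) = 0

/-- Weighted character. -/
noncomputable def wt (ρ : ℝ) (S : Finset ι) (f : ι → Bool) : ℝ := (ρ⁻¹) ^ S.card * chi S f

/-- Evaluation of a coefficient vector. -/
noncomputable def ev {H : Type*} (ρ : ℝ) (c : Finset ι × H → ℂ) (f : ι → Bool) : H → ℂ :=
  fun h => ∑ S, (wt ρ S f : ℂ) * c (S, h)

lemma wt_tog (ρ : ℝ) (hρ : ρ ≠ 0) (x : ι) (S : Finset ι) (f : ι → Bool) :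
    wt ρ (tog x S) f * (if x ∈ S then ρ⁻¹ else ρ) = wt ρ S f * sg (f x) := by
  by_cases h : x ∈ S
  · simp only [tog, h, if_true, wt, chi]
    rw [← mul_prod_erase S _ h, ← card_erase_add_one h, pow_succ]
    linear_combination (-((ρ⁻¹) ^ (S.erase x).card * ρ⁻¹ * ∏ y ∈ S.erase x, sg (f y))) *
      sg_sq (f x)
  · simp only [tog, h, if_false, wt, chi]
    rw [prod_insert h, card_insert_of_notMem h, pow_succ]
    field_simp

variable (s : ℝ) (ctl : R → Bool)

/-- Creation (`b = true`) or annihilation (`b = false`) part of the map into the query register. -/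
noncomputable def Psi (b : Bool) (d : Finset ι × R → ℂ) : Finset ι × (ι × R) → ℂ :=
  fun z => if decide (z.2.1 ∈ z.1) = b ∧ ctl z.2.2 = true then s * d (tog z.2.1 z.1, z.2.2) else 0

/-- The adjoint of `Psi`. -/
noncomputable def Phi (b : Bool) (c : Finset ι × (ι × R) → ℂ) : Finset ι × R → ℂ :=
  fun z => ∑ x, if decide (x ∈ tog x z.1) = b ∧ ctl z.2 = true then
    s * c (tog x z.1, (x, z.2)) else 0

lemma sum3 {M : Type*} [AddCommMonoid M] (F : Finset ι × (ι × R) → M) :
    ∑ z, F z = ∑ z : Finset ι × R, ∑ x, F (tog x z.1, (x, z.2)) := by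
  rw [Fintype.sum_prod_type, Fintype.sum_prod_type]
  simp only [Fintype.sum_prod_type]
  calc ∑ S : Finset ι, ∑ x : ι, ∑ r : R, F (S, (x, r))
      = ∑ x : ι, ∑ S : Finset ι, ∑ r : R, F (S, (x, r)) := sum_comm
    _ = ∑ x : ι, ∑ S : Finset ι, ∑ r : R, F (tog x S, (x, r)) := by
        refine sum_congr rfl fun x _ => ?_
        exact (sum_tog x (fun S => ∑ r : R, F (S, (x, r)))).symm
    _ = ∑ S : Finset ι, ∑ x : ι, ∑ r : R, F (tog x S, (x, r)) := sum_comm
    _ = _ := sum_congr rfl fun S _ => sum_comm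

lemma adj (b : Bool) (c : Finset ι × (ι × R) → ℂ) (d : Finset ι × R → ℂ) :
    ip c (Psi s ctl b d) = ip (Phi s ctl b c) d := by
  unfold ip
  rw [sum3]
  refine sum_congr rfl fun z _ => ?_
  simp only [Phi, Psi, map_sum, sum_mul, tog_invol _ _]
  refine sum_congr rfl fun x _ => ?_
  split_ifs
  · simp only [map_mul, Complex.conj_ofReal]; ring
  · simp

lemma nsq_Psi (b : Bool) (d : Finset ι × R → ℂ) :
    nsq (Psi s ctl b d) ≤ ∑ z : Finset ι × R, ∑ x : ι,
      if decide (x ∈ tog x z.1) = b then s ^ 2 * ‖d z‖ ^ 2 else 0 := by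
  unfold nsq
  rw [sum3]
  refine sum_le_sum fun z _ => sum_le_sum fun x _ => ?_
  simp only [Psi, tog_invol _ _]
  by_cases h1 : decide (x ∈ tog x z.1) = b
  · by_cases h2 : ctl z.2 = true
    · simp [h1, h2, mul_pow]
    · simp only [h1, h2]; simp; positivity
  · simp [h1]

lemma nr_Psi_true (hs : s ^ 2 * Fintype.card ι = 1) (d : Finset ι × R → ℂ) :
    nr (Psi s ctl true d) ≤ nr d := by
  apply Real.sqrt_le_sqrt
  refine (nsq_Psi s ctl true d).trans (sum_le_sum fun z _ => ?_)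
  calc _ ≤ ∑ _x : ι, s ^ 2 * ‖d z‖ ^ 2 := by
        refine sum_le_sum fun x _ => ?_
        split_ifs
        · exact le_rfl
        · positivity
    _ = ‖d z‖ ^ 2 := by
        rw [sum_const, card_univ, nsmul_eq_mul]
        linear_combination ‖d z‖ ^ 2 * hs

lemma nr_Psi_false (ε : ℝ) (hε : 0 ≤ ε) (D : ℕ) (hD : s ^ 2 * D ≤ ε ^ 2)
    (d : Finset ι × R → ℂ) (hd : Supp D d) : nr (Psi s ctl false d) ≤ ε * nr d := by
  apply nr_le_of_nsq _ _ _ hε
  refine (nsq_Psi s ctl false d).trans ?_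
  unfold nsq
  rw [mul_sum]
  refine sum_le_sum fun z _ => ?_
  have e : ∑ x : ι, (if decide (x ∈ tog x z.1) = false then s ^ 2 * ‖d z‖ ^ 2 else 0) =
      z.1.card * (s ^ 2 * ‖d z‖ ^ 2) := by
    simp only [decide_eq_false_iff_not, mem_tog, not_not]
    rw [sum_ite_mem, univ_inter, sum_const, nsmul_eq_mul]
  rw [e]
  by_cases h : D < z.1.card
  · have : d z = 0 := hd z.1 z.2 h
    simp [this]
  · have h1 : (z.1.card : ℝ) ≤ D := by exact_mod_cast not_lt.1 h
    have h2 : (z.1.card : ℝ) * s ^ 2 ≤ ε ^ 2 := by nlinarith [sq_nonneg s]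
    nlinarith [sq_nonneg ‖d z‖]

lemma supp_Phi (b : Bool) (D : ℕ) (c : Finset ι × (ι × R) → ℂ) (hc : Supp D c) :
    Supp (D + 1) (Phi s ctl b c) := by
  intro S r h
  refine sum_eq_zero fun x _ => ?_
  have := card_le_tog x S
  rw [hc _ _ (by simp only; omega)]
  simp

lemma supp_Psi (b : Bool) (D : ℕ) (d : Finset ι × R → ℂ) (hd : Supp D d) :
    Supp (D + 1) (Psi s ctl b d) := by
  intro S h hS
  have := card_le_tog h.1 S
  simp only [Psi]
  rw [hd _ _ (by omega)]
  simp

lemma Phi_true_zero (c : Finset ι × (ι × R) → ℂ) (hc : Supp 0 c) : Phi s ctl true c = 0 := by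
  funext z
  refine sum_eq_zero fun x _ => ?_
  split_ifs with h
  · rw [hc _ _ (card_pos.2 ⟨x, by simpa using h.1⟩)]; simp
  · rfl

lemma Psi_add (b : Bool) (d d' : Finset ι × R → ℂ) :
    Psi s ctl b (d + d') = Psi s ctl b d + Psi s ctl b d' := by
  funext z
  simp only [Psi, Pi.add_apply]
  split_ifs <;> ring

lemma Psi_smul (b : Bool) (a : ℂ) (d : Finset ι × R → ℂ) :
    Psi s ctl b (a • d) = a • Psi s ctl b d := by
  funext z
  simp only [Psi, Pi.smul_apply, smul_eq_mul]
  split_ifs <;> ring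

lemma ev_Psi (ρ : ℝ) (hρ : ρ ≠ 0) (d : Finset ι × R → ℂ) (f : ι → Bool) (x : ι) (r : R) :
    ev ρ ((ρ : ℂ) • Psi s ctl true d + ((ρ⁻¹ : ℝ) : ℂ) • Psi s ctl false d) f (x, r) =
      if ctl r = true then s * sg (f x) * ev ρ d f r else 0 := by
  unfold ev
  rw [← sum_tog x]
  split_ifs with h
  · rw [mul_sum]
    refine sum_congr rfl fun S _ => ?_
    have := congrArg (fun t : ℝ => (t : ℂ)) (wt_tog ρ hρ x S f)
    simp only [Pi.add_apply, Pi.smul_apply, smul_eq_mul, Psi, tog_invol _ _, h, and_true,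
      mem_tog]
    by_cases hx : x ∈ S
    · simp only [hx, if_true] at this
      push_cast at this
      simp only [hx, not_true, decide_false, Bool.false_eq_true, if_false, if_true]
      push_cast
      linear_combination (s * d (S, r)) * this
    · simp only [hx, if_false] at this
      push_cast at this
      simp only [hx, not_false_iff, decide_true, Bool.true_eq_false, if_false, if_true]
      linear_combination (s * d (S, r)) * this
  · refine sum_eq_zero fun S _ => ?_
    simp [Psi, h]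

lemma ev_Phi (ρ : ℝ) (hρ : ρ ≠ 0) (c : Finset ι × (ι × R) → ℂ) (f : ι → Bool) (r : R) :
    ev ρ (((ρ⁻¹ : ℝ) : ℂ) • Phi s ctl true c + (ρ : ℂ) • Phi s ctl false c) f r =
      if ctl r = true then s * ∑ y, sg (f y) * ev ρ c f (y, r) else 0 := by
  unfold ev
  split_ifs with h
  · simp only [Pi.add_apply, Pi.smul_apply, smul_eq_mul, Phi, h, and_true, mul_sum,
      ← sum_add_distrib]
    rw [sum_comm]
    refine sum_congr rfl fun x _ => ?_
    rw [← sum_tog x]
    refine sum_congr rfl fun S _ => ?_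
    have := congrArg (fun t : ℝ => (t : ℂ)) (wt_tog ρ hρ x S f)
    simp only [tog_invol _ _]
    by_cases hx : x ∈ S
    · simp only [hx, if_true] at this
      push_cast at this
      simp only [hx, decide_true, Bool.true_eq_false, if_false, if_true]
      push_cast
      linear_combination (s * c (S, x, r)) * this
    · simp only [hx, if_false] at this
      push_cast at this
      simp only [hx, decide_false, Bool.false_eq_true, if_false, if_true]
      linear_combination (s * c (S, x, r)) * this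
  · refine sum_eq_zero fun S _ => ?_
    simp [Phi, h]

lemma Supp.add {H : Type*} {D : ℕ} {c c' : Finset ι × H → ℂ} (h : Supp D c) (h' : Supp D c') :
    Supp D (c + c') := fun S z hS => by simp [h S z hS, h' S z hS]

lemma Supp.smul {H : Type*} {D : ℕ} {c : Finset ι × H → ℂ} (a : ℂ) (h : Supp D c) :
    Supp D (a • c) := fun S z hS => by simp [h S z hS]

lemma Supp.mono {H : Type*} {D D' : ℕ} {c : Finset ι × H → ℂ} (h : Supp D c) (hD : D ≤ D') :
    Supp D' c := fun S z hS => h S z (by omega)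

lemma ev_add {H : Type*} (ρ : ℝ) (c c' : Finset ι × H → ℂ) (f : ι → Bool) :
    ev ρ (c + c') f = ev ρ c f + ev ρ c' f := by
  funext h; simp [ev, mul_add, sum_add_distrib]

lemma ev_smul {H : Type*} (ρ : ℝ) (a : ℂ) (c : Finset ι × H → ℂ) (f : ι → Bool) :
    ev ρ (a • c) f = a • ev ρ c f := by
  funext h; simp [ev, mul_sum, mul_left_comm]

/-- One oracle call, on a product register. -/
lemma gate_prod (hs : s ^ 2 * Fintype.card ι = 1) (ρ : ℝ) (hρ : 1 ≤ ρ) (ε : ℝ) (hε : 0 ≤ ε)
    (hε1 : ε ≤ 1) (D : ℕ) (hD : s ^ 2 * (D + 1 : ℕ) ≤ ε ^ 2) (c : Finset ι × (ι × R) → ℂ)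
    (hc : Supp D c) :
    ∃ k : Finset ι × (ι × R) → ℂ, Supp (D + 2) k ∧
      (∀ f x r, ev ρ k f (x, r) = if ctl r = true then
        -2 * s ^ 2 * sg (f x) * ∑ y, sg (f y) * ev ρ c f (y, r) else 0) ∧
      nr (c + k) ≤ (1 + (2 * ρ ^ 2 + 4) * ε) * nr c ∧
      (D = 0 → nr k ≤ (2 * ρ ^ 2 + 4) * ε * nr c) := by
  have hρ0 : 0 < ρ := by linarith
  set a := Phi s ctl true c with ha
  set b := Phi s ctl false c with hb
  set d : Finset ι × R → ℂ := ((ρ⁻¹ : ℝ) : ℂ) • a + (ρ : ℂ) • b with hd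
  have sa : Supp (D + 1) a := supp_Phi s ctl true D c hc
  have sb : Supp (D + 1) b := supp_Phi s ctl false D c hc
  have sd : Supp (D + 1) d := (sa.smul _).add (sb.smul _)
  have na : nr a ≤ nr c := by
    have := nr_adj_le c a (Psi s ctl true a) 1 zero_le_one (adj s ctl true c a)
      (by rw [one_mul]; exact nr_Psi_true s ctl hs a)
    rwa [one_mul] at this
  have nb : nr b ≤ ε * nr c :=
    nr_adj_le c b (Psi s ctl false b) ε hε (adj s ctl false c b)
      (nr_Psi_false s ctl ε hε (D + 1) hD b sb)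
  have hc0 := nr_nonneg c
  set k1 : Finset ι × (ι × R) → ℂ := ((-2 * ρ ^ 2 : ℝ) : ℂ) • Psi s ctl true b +
    ((-2 * (ρ⁻¹) ^ 2 : ℝ) : ℂ) • Psi s ctl false a + ((-2 : ℝ) : ℂ) • Psi s ctl false b with hk1
  have nk1 : nr k1 ≤ (2 * ρ ^ 2 + 4) * ε * nr c := by
    have t1 : nr (((-2 * ρ ^ 2 : ℝ) : ℂ) • Psi s ctl true b) ≤ 2 * ρ ^ 2 * (ε * nr c) := by
      rw [nr_smul, Complex.norm_real, Real.norm_eq_abs, abs_of_nonpos (by nlinarith)]
      have := (nr_Psi_true s ctl hs b).trans nb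
      nlinarith
    have t2 : nr (((-2 * (ρ⁻¹) ^ 2 : ℝ) : ℂ) • Psi s ctl false a) ≤ 2 * (ε * nr c) := by
      have hi : 0 < ρ⁻¹ := inv_pos.2 hρ0
      have hi1 : ρ⁻¹ ≤ 1 := inv_le_one_of_one_le₀ hρ
      rw [nr_smul, Complex.norm_real, Real.norm_eq_abs, abs_of_nonpos (by nlinarith)]
      have := (nr_Psi_false s ctl ε hε (D + 1) hD a sa).trans
        (mul_le_mul_of_nonneg_left na hε)
      exact mul_le_mul (by nlinarith) this (nr_nonneg _) (by norm_num)
    have t3 : nr (((-2 : ℝ) : ℂ) • Psi s ctl false b) ≤ 2 * (ε * nr c) := by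
      rw [nr_smul, Complex.norm_real, Real.norm_eq_abs, abs_of_nonpos (by norm_num)]
      have := (nr_Psi_false s ctl ε hε (D + 1) hD b sb).trans
        (mul_le_mul_of_nonneg_left nb hε)
      have h2 : ε * (ε * nr c) ≤ ε * nr c := by nlinarith [mul_nonneg hε hc0]
      linarith
    have := (nr_add_le _ _).trans (add_le_add ((nr_add_le _ _).trans (add_le_add t1 t2)) t3)
    rw [hk1]; linarith
  have hsplit : (-2 : ℂ) • ((ρ : ℂ) • Psi s ctl true d + ((ρ⁻¹ : ℝ) : ℂ) • Psi s ctl false d) =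
      (-2 : ℂ) • Psi s ctl true a + k1 := by
    rw [hd, hk1, Psi_add, Psi_add, Psi_smul, Psi_smul, Psi_smul, Psi_smul]
    funext z
    have hρc : (ρ : ℂ) ≠ 0 := by exact_mod_cast hρ0.ne'
    simp only [Pi.add_apply, Pi.smul_apply, smul_eq_mul]
    push_cast
    field_simp
    ring
  refine ⟨(-2 : ℂ) • ((ρ : ℂ) • Psi s ctl true d + ((ρ⁻¹ : ℝ) : ℂ) • Psi s ctl false d),
    (((supp_Psi s ctl true _ d sd).smul _).add ((supp_Psi s ctl false _ d sd).smul _)).smul _,
    ?_, ?_, ?_⟩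
  · intro f x r
    rw [ev_smul, Pi.smul_apply, ev_Psi s ctl ρ hρ0.ne', hd, ha, hb, ev_Phi s ctl ρ hρ0.ne']
    split_ifs
    · simp only [smul_eq_mul]; ring
    · simp
  · rw [hsplit, ← add_assoc]
    have t := nr_refl_le c a (Psi s ctl true a) (adj s ctl true c a) (nr_Psi_true s ctl hs a)
    rw [sub_eq_add_neg, ← neg_smul] at t
    have := (nr_add_le _ _).trans (add_le_add t nk1)
    linarith
  · intro h0
    subst h0
    have : a = 0 := Phi_true_zero s ctl c hc
    have h2 : Psi s ctl true a = 0 := by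
      rw [this]; funext z; simp [Psi]
    rw [hsplit, h2, smul_zero, zero_add]
    exact nk1

end Pool.Agent.MP_36f78e_lc.H24
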