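import Mathlib
import Pool.Agent.MP_36f78e_lc.H24.Fock

/-!
The hybrid argument in the weighted coefficient norm.
-/

set_option linter.unusedSectionVars false

namespace Pool.Agent.MP_36f78e_lc.H24

open Finset Matrix

variable {ι : Type} [Fintype ι] [DecidableEq ι] {H : Type} [Fintype H] [DecidableEq H]

/-- `G f` is a controlled reflection about the phase state of `f`. -/
def IsOrc (s : ℝ) (G : (ι → Bool) → Matrix H H ℂ) : Prop :=
  ∃ (R : Type) (_ : Fintype R) (e : H ≃ ι × R) (ctl : R → Bool), ∀ f v h,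
    (G f *ᵥ v) h = v h + if ctl (e h).2 = true then
      -2 * s ^ 2 * sg (f (e h).1) * ∑ y, sg (f y) * v (e.symm (y, (e h).2)) else 0

lemma gate_gen (s : ℝ) (hs : s ^ 2 * Fintype.card ι = 1) (ρ : ℝ) (hρ : 1 ≤ ρ) (ε : ℝ)
    (hε : 0 ≤ ε) (hε1 : ε ≤ 1) (D : ℕ) (hD : s ^ 2 * (D + 1 : ℕ) ≤ ε ^ 2)
    (G : (ι → Bool) → Matrix H H ℂ) (hG : IsOrc s G) (c : Finset ι × H → ℂ) (hc : Supp D c) :
    ∃ k : Finset ι × H → ℂ, Supp (D + 2) k ∧
      (∀ f, ev ρ k f = G f *ᵥ ev ρ c f - ev ρ c f) ∧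
      nr (c + k) ≤ (1 + (2 * ρ ^ 2 + 4) * ε) * nr c ∧
      (D = 0 → nr k ≤ (2 * ρ ^ 2 + 4) * ε * nr c) := by
  obtain ⟨R, _, e, ctl, hG⟩ := hG
  set E : Finset ι × H ≃ Finset ι × (ι × R) := Equiv.prodCongr (Equiv.refl _) e with hE
  obtain ⟨k, k1, k2, k3, k4⟩ := gate_prod s ctl hs ρ hρ ε hε hε1 D hD (fun z => c (E.symm z))
    (fun S h hS => hc S _ hS)
  have nc : nr (fun z => c (E.symm z)) = nr c := nr_comp_equiv E.symm c
  refine ⟨fun z => k (E z), fun S h hS => k1 S _ hS, fun f => ?_, ?_, fun h0 => ?_⟩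
  · funext h
    rw [Pi.sub_apply, hG, add_sub_cancel_left]
    exact k2 f (e h).1 (e h).2
  · rw [← nc]
    refine le_of_eq_of_le ?_ k3
    rw [← nr_comp_equiv E]
    congr 1
    funext z
    simp
  · rw [← nc, nr_comp_equiv E k]
    exact k4 h0

/-- The difference between the run with oracle `f` and the baseline run has small weighted
coefficients. -/
def Hyb (ρ η : ℝ) (t : ℕ) (F : (ι → Bool) → Matrix H H ℂ) (B : Matrix H H ℂ) : Prop :=
  (∀ v, nr (B *ᵥ v) ≤ nr v) ∧ ∀ y, ∃ d : Finset ι × H → ℂ, Supp (2 * t) d ∧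
    (∀ f, ev ρ d f = F f *ᵥ y - B *ᵥ y) ∧ nr d ≤ ((1 + η) ^ t - 1) * nr y

lemma Hyb.one (ρ η : ℝ) : Hyb ρ η 0 (fun _ : ι → Bool => (1 : Matrix H H ℂ)) 1 := by
  refine ⟨fun v => by simp, fun y => ⟨0, fun _ _ _ => rfl, fun f => ?_, ?_⟩⟩
  · funext h; simp [ev]
  · simp [nr_zero]

lemma Hyb.succ {ρ η : ℝ} (hη : 0 ≤ η) {t : ℕ} {F : (ι → Bool) → Matrix H H ℂ} {B : Matrix H H ℂ}
    (h : Hyb ρ η t F B) : Hyb ρ η (t + 1) F B := by
  refine ⟨h.1, fun y => ?_⟩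
  obtain ⟨d, d1, d2, d3⟩ := h.2 y
  refine ⟨d, d1.mono (by omega), d2, d3.trans (mul_le_mul_of_nonneg_right ?_ (nr_nonneg y))⟩
  have := pow_le_pow_right₀ (show 1 ≤ 1 + η by linarith) (Nat.le_succ t)
  exact sub_le_sub_right this 1

lemma Hyb.fixed {ρ η : ℝ} {t : ℕ} {F : (ι → Bool) → Matrix H H ℂ} {B : Matrix H H ℂ}
    (h : Hyb ρ η t F B) (A : Matrix H H ℂ) (hA : ∀ v, nr (A *ᵥ v) ≤ nr v) :
    Hyb ρ η t (fun f => A * F f) (A * B) := by
  refine ⟨fun v => ?_, fun y => ?_⟩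
  · rw [← mulVec_mulVec]; exact (hA _).trans (h.1 v)
  obtain ⟨d, d1, d2, d3⟩ := h.2 y
  refine ⟨fun z => (A *ᵥ fun h' => d (z.1, h')) z.2, fun S z hS => ?_, fun f => ?_, ?_⟩
  · have : (fun h' => d (S, h')) = 0 := funext fun h' => d1 S h' hS
    simp [this]
  · rw [← mulVec_mulVec, ← mulVec_mulVec, ← mulVec_sub, ← d2 f]
    funext z
    simp only [ev, mulVec, dotProduct, mul_sum]
    rw [sum_comm]
    exact sum_congr rfl fun _ _ => sum_congr rfl fun _ _ => by ring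
  · refine le_trans (Real.sqrt_le_sqrt ?_) d3
    unfold nsq
    rw [Fintype.sum_prod_type, Fintype.sum_prod_type]
    exact sum_le_sum fun S _ => nsq_le_of_nr _ _ (hA fun h' => d (S, h'))

lemma Hyb.orc (s : ℝ) (hs : s ^ 2 * Fintype.card ι = 1) {ρ : ℝ} (hρ : 1 ≤ ρ) {ε : ℝ}
    (hε : 0 ≤ ε) (hε1 : ε ≤ 1) {t : ℕ} (hD : s ^ 2 * (2 * t + 1 : ℕ) ≤ ε ^ 2)
    {F : (ι → Bool) → Matrix H H ℂ} {B : Matrix H H ℂ}
    (h : Hyb ρ ((2 * ρ ^ 2 + 4) * ε) t F B) (G : (ι → Bool) → Matrix H H ℂ) (hG : IsOrc s G) :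
    Hyb ρ ((2 * ρ ^ 2 + 4) * ε) (t + 1) (fun f => G f * F f) B := by
  refine ⟨h.1, fun y => ?_⟩
  obtain ⟨d, d1, d2, d3⟩ := h.2 y
  set η := (2 * ρ ^ 2 + 4) * ε with hη
  have hη0 : 0 ≤ η := by positivity
  set c0 : Finset ι × H → ℂ := fun z => if z.1 = ∅ then (B *ᵥ y) z.2 else 0 with hc0
  have s0 : Supp 0 c0 := fun S z hS => by
    have : S ≠ ∅ := by rintro rfl; simp at hS
    simp [hc0, this]
  have e0 : ∀ f, ev ρ c0 f = B *ᵥ y := fun f => by
    funext z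
    simp [ev, hc0, wt, chi]
  have n0 : nr c0 ≤ nr y := by
    refine le_trans (le_of_eq ?_) (h.1 y)
    unfold nr nsq
    rw [Fintype.sum_prod_type, sum_comm]
    congr 1
    refine sum_congr rfl fun z _ => ?_
    rw [sum_eq_single ∅] <;> simp +contextual [hc0]
  obtain ⟨k, k1, k2, k3, -⟩ := gate_gen s hs ρ hρ ε hε hε1 (2 * t) hD G hG d d1
  obtain ⟨l, l1, l2, -, l4⟩ := gate_gen s hs ρ hρ ε hε hε1 0
    (le_trans (mul_le_mul_of_nonneg_left (by exact_mod_cast (by omega)) (sq_nonneg s)) hD) G hG c0 s0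
  refine ⟨d + k + l, ((d1.mono (by omega)).add (k1.mono (by omega))).add (l1.mono (by omega)),
    fun f => ?_, ?_⟩
  · rw [ev_add, ev_add, k2, l2, e0, d2, ← mulVec_mulVec, mulVec_sub]
    abel
  · have t1 := mul_le_mul_of_nonneg_left d3 (show 0 ≤ 1 + η by linarith)
    have t2 := mul_le_mul_of_nonneg_left n0 hη0
    have := (nr_add_le _ _).trans (add_le_add k3 (l4 rfl))
    rw [pow_succ]
    nlinarith

/-- The key inequality: non-negative vectors correlate weakly with the oracle-dependent part. -/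
lemma key_corr {W : Type} [Fintype W] (emb : W → H) (hemb : Function.Injective emb)
    (k : ℕ) (hk : 1 ≤ k) (hW : 4 * Fintype.card W ≤ 4 ^ k) (ρ : ℝ) (hρ : ρ ^ 2 = 4 * k)
    (d : Finset ι × H → ℂ) (l : (ι → Bool) → W → ℝ) (hl0 : ∀ f i, 0 ≤ l f i)
    (hl1 : ∀ f i, l f i ≤ 1) (hl2 : ∀ f, 1 ≤ ∑ i, l f i) :
    ∑ f, ∑ i, (ev ρ d f (emb i)).re * l f i ≤ 5 / 2 * nr d * √(∑ i, (∑ f, l f i) ^ 2) := by
  have hk' : (1 : ℝ) ≤ k := by exact_mod_cast hk
  have hρ0 : ρ ≠ 0 := by rintro rfl; simp at hρ; omega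
  set M : ℝ := (Fintype.card (ι → Bool) : ℝ) with hM
  set w : ℝ := (Fintype.card W : ℝ) with hw
  set β : W → ℝ := fun i => √(∑ S, ‖d (S, emb i)‖ ^ 2) with hβ
  set μ : W → ℝ := fun i => ∑ f, l f i with hμ
  set m := √(∑ i, μ i ^ 2) with hm
  have hm0 : 0 ≤ m := Real.sqrt_nonneg _
  have h1 : ∀ i, ∑ f, (ev ρ d f (emb i)).re * l f i ≤ 2 * β i * (μ i + M / 4 ^ k) := by
    intro i
    have := corr_le k hk (fun S => (ρ⁻¹) ^ S.card * (d (S, emb i)).re) (fun f => l f i)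
      (fun f => hl0 f i) (fun f => hl1 f i) (β i) (Real.sqrt_nonneg _) (by
        rw [hβ, Real.sq_sqrt (sum_nonneg fun _ _ => sq_nonneg _)]
        refine sum_le_sum fun S _ => ?_
        rw [← hρ, mul_pow, ← mul_assoc, ← pow_mul, ← pow_mul, mul_comm S.card 2, ← mul_pow,
          mul_inv_cancel₀ hρ0, one_pow, one_mul, ← sq_abs]
        exact pow_le_pow_left₀ (abs_nonneg _) (Complex.abs_re_le_norm _) 2)
    refine le_of_eq_of_le (sum_congr rfl fun f _ => ?_) this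
    congr 1
    simp only [ev, Complex.re_sum, Complex.re_ofReal_mul, wt]
    exact sum_congr rfl fun S _ => by ring
  have hB : √(∑ i, β i ^ 2) ≤ nr d := by
    apply Real.sqrt_le_sqrt
    unfold nsq
    rw [Fintype.sum_prod_type, sum_comm]
    calc ∑ i, β i ^ 2 = ∑ i, ∑ S, ‖d (S, emb i)‖ ^ 2 :=
          sum_congr rfl fun i _ => Real.sq_sqrt (sum_nonneg fun _ _ => sq_nonneg _)
      _ = ∑ h ∈ univ.image emb, ∑ S, ‖d (S, h)‖ ^ 2 := by
          rw [sum_image fun a _ b _ h => hemb h]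
      _ ≤ _ := sum_le_sum_of_subset_of_nonneg (subset_univ _)
          fun _ _ _ => sum_nonneg fun _ _ => sq_nonneg _
  have c1 : ∑ i, β i * μ i ≤ nr d * m :=
    (Real.sum_mul_le_sqrt_mul_sqrt _ _ _).trans (mul_le_mul_of_nonneg_right hB hm0)
  have c2 : ∑ i, β i ≤ nr d * √w := by
    have := Real.sum_mul_le_sqrt_mul_sqrt univ β (fun _ => 1)
    simp only [mul_one, one_pow, sum_const, card_univ, nsmul_eq_mul] at this
    exact this.trans (mul_le_mul_of_nonneg_right hB (Real.sqrt_nonneg _))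
  have c3 : M ≤ m * √w := by
    have := Real.sum_mul_le_sqrt_mul_sqrt univ μ (fun _ => 1)
    simp only [mul_one, one_pow, sum_const, card_univ, nsmul_eq_mul] at this
    refine le_trans ?_ this
    rw [hμ, sum_comm]
    calc M = ∑ _f : ι → Bool, (1 : ℝ) := by simp [hM]
      _ ≤ _ := sum_le_sum fun f _ => hl2 f
  have c4 : 4 * w ≤ 4 ^ k := by rw [hw]; exact_mod_cast hW
  have hww : √w * √w = w := Real.mul_self_sqrt (by positivity)
  have c5 : (∑ i, β i) * (M / 4 ^ k) ≤ nr d * m / 4 := by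
    have hp : (0 : ℝ) < 4 ^ k := by positivity
    have hd0 := nr_nonneg d
    calc (∑ i, β i) * (M / 4 ^ k) ≤ (nr d * √w) * (m * √w / 4 ^ k) := by gcongr
      _ = nr d * m * (√w * √w / 4 ^ k) := by ring
      _ ≤ nr d * m * (1 / 4) := by
          apply mul_le_mul_of_nonneg_left _ (mul_nonneg hd0 hm0)
          rw [hww, div_le_iff₀ hp]; linarith
      _ = _ := by ring
  rw [sum_comm]
  calc _ ≤ ∑ i, 2 * β i * (μ i + M / 4 ^ k) := sum_le_sum fun i _ => h1 i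
    _ = 2 * ∑ i, β i * μ i + 2 * ((∑ i, β i) * (M / 4 ^ k)) := by
        rw [sum_mul, mul_sum, mul_sum, ← sum_add_distrib]
        exact sum_congr rfl fun i _ => by ring
    _ ≤ _ := by linarith

end Pool.Agent.MP_36f78e_lc.H24
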