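import Mathlib
import Pool.Agent.MP_36f78e_lc.H24.Hybrid

/-!
The core lower bound, for abstract acceptance operators.
-/

set_option linter.unusedSectionVars false

namespace Pool.Agent.MP_36f78e_lc.H24

open Finset Matrix

variable {W : Type} [Fintype W]

lemma form_homog (M : Matrix W W ℂ) (a : ℝ)
    (h : ∀ w, nsq w = 1 → (ip w (M *ᵥ w)).re ≤ a) (v : W → ℂ) :
    (ip v (M *ᵥ v)).re ≤ a * nsq v := by
  rcases (nr_nonneg v).eq_or_lt with h0 | h0
  · have h1 : nsq v = 0 := by rw [← nr_sq, ← h0]; simp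
    have h2 := norm_ip_le v (M *ᵥ v)
    rw [← h0, zero_mul] at h2
    have h3 : ip v (M *ᵥ v) = 0 := norm_le_zero_iff.1 h2
    rw [h1, h3]; simp
  · have h1 := h ((((nr v)⁻¹ : ℝ) : ℂ) • v) (by
      rw [← nr_sq, nr_smul, Complex.norm_real, Real.norm_eq_abs, abs_of_pos (inv_pos.2 h0),
        inv_mul_cancel₀ h0.ne', one_pow])
    rw [mulVec_smul, ip_smul_left, ip_smul_right, Complex.conj_ofReal, Complex.re_ofReal_mul,
      Complex.re_ofReal_mul] at h1
    rw [← nr_sq]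
    have h2 := mul_le_mul_of_nonneg_right h1 (sq_nonneg (nr v))
    refine le_of_eq_of_le ?_ h2
    field_simp

lemma rayleigh (M : Matrix W W ℂ) (hM : Mᴴ = M) (w : W → ℂ) (hw : nsq w = 1) (γ : ℝ)
    (hγ : 0 ≤ γ) (h : ∀ w', nsq w' = 1 → (ip w' (M *ᵥ w')).re ≤ (ip w (M *ᵥ w)).re + γ)
    (y : W → ℂ) (hy : 0 ≤ (ip y (M *ᵥ y)).re) :
    (((ip w (M *ᵥ w)).re + γ) * (ip y w).re - (ip y (M *ᵥ w)).re) ^ 2 ≤
      ((ip w (M *ᵥ w)).re + γ) * nsq y * γ := by
  set a := (ip w (M *ᵥ w)).re + γ with ha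
  have key : ∀ t : ℝ, 0 ≤ (a * nsq y - (ip y (M *ᵥ y)).re) * (t * t) +
      (2 * (a * (ip y w).re - (ip y (M *ᵥ w)).re)) * t + γ := by
    intro t
    have h1 := form_homog M a h (w + (t : ℂ) • y)
    rw [nsq_add_smul, hw, mulVec_add, mulVec_smul, ip_add_left, ip_add_right, ip_add_right,
      ip_smul_left, ip_smul_left, ip_smul_right, ip_smul_right, Complex.conj_ofReal] at h1
    have h2 : (ip w (M *ᵥ y)).re = (ip y (M *ᵥ w)).re := by
      rw [ip_mulVec, hM, re_ip_comm]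
    simp only [Complex.add_re, Complex.re_ofReal_mul] at h1
    rw [h2, re_ip_comm w y] at h1
    nlinarith
  have := discrim_le_zero key
  unfold discrim at this
  nlinarith [mul_nonneg hy hγ]

variable {ι : Type} [Fintype ι] [DecidableEq ι] {H : Type} [Fintype H] [DecidableEq H]

lemma re_ip_real (u : W → ℂ) (l : W → ℝ) :
    (ip u (fun i => (l i : ℂ))).re = ∑ i, (u i).re * l i := by
  simp [ip, Complex.re_sum]

lemma core_abstract (emb : W → H) (hemb : Function.Injective emb) (J : Matrix H W ℂ)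
    (hJ : ∀ z, Jᴴ *ᵥ z = fun i => z (emb i)) (hJ2 : ∀ w, nr (J *ᵥ w) = nr w)
    (k : ℕ) (hk : 1 ≤ k) (hW : 4 * Fintype.card W ≤ 4 ^ k) (ρ : ℝ) (hρ : ρ ^ 2 = 4 * k)
    (η : ℝ) (t : ℕ) (N : (ι → Bool) → Matrix H H ℂ) (N0 : Matrix H H ℂ) (hN : ∀ f, (N f)ᴴ = N f)
    (hyb : Hyb ρ η t N N0) (γ : ℝ) (hγ : 0 ≤ γ) (hγ2 : 200 * γ * (Fintype.card W : ℝ) ^ 2 ≤ 1)
    (hpos : ∀ f w, 0 ≤ (ip w ((Jᴴ * N f * J) *ᵥ w)).re)
    (hle : ∀ f w, nsq w = 1 → (ip w ((Jᴴ * N f * J) *ᵥ w)).re ≤ 1)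
    (hs : ∀ w, nsq w = 1 → (ip w ((Jᴴ * N0 * J) *ᵥ w)).re ≤ 1 / 3)
    (hc : ∀ f, ∃ w : W → ℝ, (∀ i, 0 ≤ w i) ∧ nsq (fun i => (w i : ℂ)) = 1 ∧
      2 / 3 ≤ (ip (fun i => (w i : ℂ)) ((Jᴴ * N f * J) *ᵥ fun i => (w i : ℂ))).re ∧
      ∀ w', nsq w' = 1 → (ip w' ((Jᴴ * N f * J) *ᵥ w')).re ≤
        (ip (fun i => (w i : ℂ)) ((Jᴴ * N f * J) *ᵥ fun i => (w i : ℂ))).re + γ) :
    7 / 75 ≤ (1 + η) ^ t - 1 := by
  choose w w0 w1 w2 w3 using hc
  have hmax : ∀ f, ∃ j, 0 < w f j ∧ ∀ i, w f i ≤ w f j := by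
    intro f
    have hne : (univ : Finset W).Nonempty := by
      by_contra h
      have := w1 f
      rw [not_nonempty_iff_eq_empty] at h
      simp [nsq, h] at this
    obtain ⟨j, -, hj⟩ := exists_max_image univ (w f) hne
    refine ⟨j, ?_, fun i => hj i (mem_univ i)⟩
    by_contra h
    have hz : ∀ i, w f i = 0 := fun i =>
      le_antisymm ((hj i (mem_univ i)).trans (not_lt.1 h)) (w0 f i)
    have := w1 f
    simp [nsq, hz] at this
  choose j j0 j1 using hmax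
  set l : (ι → Bool) → W → ℝ := fun f i => w f i / w f (j f) with hl
  have l0 : ∀ f i, 0 ≤ l f i := fun f i => div_nonneg (w0 f i) (j0 f).le
  have l1 : ∀ f i, l f i ≤ 1 := fun f i => (div_le_one (j0 f)).2 (j1 f i)
  have l2 : ∀ f, 1 ≤ ∑ i, l f i := fun f => by
    have := single_le_sum (f := l f) (fun i _ => l0 f i) (mem_univ (j f))
    rwa [show l f (j f) = 1 from div_self (j0 f).ne'] at this
  set μ : W → ℝ := fun i => ∑ f, l f i with hμ
  set y : W → ℂ := fun i => (μ i : ℂ) with hy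
  set m := √(∑ i, μ i ^ 2) with hm
  have hmy : nr y = m := by simp [nr, nsq, hy, hm]
  have hm2 : m ^ 2 = ∑ i, μ i ^ 2 := Real.sq_sqrt (sum_nonneg fun _ _ => sq_nonneg _)
  have μ0 : ∀ i, 0 ≤ μ i := fun i => sum_nonneg fun f _ => l0 f i
  have hmpos : 0 < m := by
    apply Real.sqrt_pos.2
    have f0 : ι → Bool := fun _ => false
    have h1 : 1 ≤ μ (j f0) := by
      have := single_le_sum (f := fun f => l f (j f0)) (fun f _ => l0 f _) (mem_univ f0)
      rwa [show l f0 (j f0) = 1 from div_self (j0 f0).ne'] at this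
    have := single_le_sum (f := fun i => μ i ^ 2) (fun i _ => sq_nonneg _) (mem_univ (j f0))
    nlinarith
  obtain ⟨d, -, d2, d3⟩ := hyb.2 (J *ᵥ y)
  rw [hJ2, hmy] at d3
  have kc := key_corr emb hemb k hk hW ρ hρ d l l0 l1 l2
  set c : ℝ := (Fintype.card W : ℝ) with hcW
  have hc1 : 1 ≤ c := by
    rw [hcW]; exact_mod_cast Fintype.card_pos_iff.2 ⟨j fun _ => false⟩
  have hcc : √c * √c = c := Real.mul_self_sqrt (by positivity)
  have hsc : 0 < √c := Real.sqrt_pos.2 (by linarith)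
  have c3 : (Fintype.card (ι → Bool) : ℝ) ≤ m * √c := by
    have := Real.sum_mul_le_sqrt_mul_sqrt univ μ (fun _ => 1)
    simp only [mul_one, one_pow, sum_const, card_univ, nsmul_eq_mul] at this
    refine le_trans ?_ this
    rw [hμ, sum_comm]
    calc _ = ∑ _f : ι → Bool, (1 : ℝ) := by simp
      _ ≤ _ := sum_le_sum fun f _ => l2 f
  have hf : ∀ f, 2 / 3 * ∑ i, μ i * l f i ≤ (∑ i, (ev ρ d f (emb i)).re * l f i +
      ∑ i, (((Jᴴ * N0 * J) *ᵥ y) i).re * l f i) + m / (10 * √c) := by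
    intro f
    have hH : (Jᴴ * N f * J)ᴴ = Jᴴ * N f * J := by
      rw [conjTranspose_mul, conjTranspose_mul, conjTranspose_conjTranspose, hN, Matrix.mul_assoc]
    have r := rayleigh _ hH _ (w1 f) γ hγ (w3 f) y (hpos f y)
    have w2f := w2 f
    have w4f := hle f _ (w1 f)
    set a0 := (ip (fun i => (w f i : ℂ)) ((Jᴴ * N f * J) *ᵥ fun i => (w f i : ℂ))).re with ha0
    rw [ip_mulVec _ y, hH, re_ip_real, re_ip_real, ← nr_sq, hmy] at r
    have hγ1 : γ ≤ 1 := by nlinarith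
    have hwmax : 1 ≤ √c * w f (j f) := by
      have h1 : (1 : ℝ) ≤ c * w f (j f) ^ 2 := by
        have := w1 f
        simp only [nsq, Complex.norm_real, Real.norm_eq_abs, sq_abs] at this
        rw [← this]
        calc _ ≤ ∑ _i : W, w f (j f) ^ 2 :=
              sum_le_sum fun i _ => pow_le_pow_left₀ (w0 f i) (j1 f i) 2
          _ = _ := by simp [hcW]
      have h2 : 1 ^ 2 ≤ (√c * w f (j f)) ^ 2 := by rw [mul_pow, sq √c, hcc]; linarith
      exact le_of_sq_le_sq h2 (mul_nonneg hsc.le (j0 f).le)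
    have r1 : (a0 + γ) * m ^ 2 * γ ≤ (m / (10 * c)) ^ 2 := by
      rw [div_pow, le_div_iff₀ (by positivity)]
      have h1 : (a0 + γ) * (γ * (10 * c) ^ 2) ≤ 2 * (1 / 2) :=
        mul_le_mul (by linarith) (by nlinarith) (by positivity) (by norm_num)
      nlinarith [sq_nonneg m]
    have r1' := abs_le_of_sq_le_sq' (r.trans r1) (by positivity)
    have hS : 0 ≤ ∑ i, μ i * w f i := sum_nonneg fun i _ => mul_nonneg (μ0 i) (w0 f i)
    have r2 : 2 / 3 * ∑ i, μ i * w f i ≤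
        ∑ i, (((Jᴴ * N f * J) *ᵥ y) i).re * w f i + m / (10 * c) := by
      have : ∑ i, (y i).re * w f i = ∑ i, μ i * w f i := by simp [hy]
      rw [this] at r1'
      have := mul_le_mul_of_nonneg_right (show 2 / 3 ≤ a0 + γ by linarith) hS
      linarith [r1'.2]
    have r3 : ∀ i, ((Jᴴ * N f * J) *ᵥ y) i = ev ρ d f (emb i) + ((Jᴴ * N0 * J) *ᵥ y) i := by
      intro i
      rw [d2, ← mulVec_mulVec, ← mulVec_mulVec, ← mulVec_mulVec, ← mulVec_mulVec, hJ, hJ]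
      simp
    simp only [r3, Complex.add_re, add_mul, sum_add_distrib] at r2
    have r4 := div_le_div_of_nonneg_right r2 (j0 f).le
    simp only [hl, ← mul_div_assoc, ← sum_div]
    rw [← add_div]
    rw [add_div _ (m / (10 * c))] at r4
    refine r4.trans (add_le_add_right ?_ _)
    rw [div_div]
    apply div_le_div_of_nonneg_left hmpos.le (by positivity)
    nlinarith
  have h1 := sum_le_sum fun f (_ : f ∈ univ) => hf f
  rw [← mul_sum, sum_add_distrib, sum_add_distrib, sum_comm, sum_comm (f := fun f i =>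
    (((Jᴴ * N0 * J) *ᵥ y) i).re * l f i)] at h1
  simp only [← mul_sum] at h1
  rw [sum_const, card_univ, nsmul_eq_mul] at h1
  have h6 : (Fintype.card (ι → Bool) : ℝ) * (m / (10 * √c)) ≤ m ^ 2 / 10 := by
    calc _ ≤ m * √c * (m / (10 * √c)) := mul_le_mul_of_nonneg_right c3 (by positivity)
      _ = _ := by field_simp
  have h2 := form_homog _ _ hs y
  rw [re_ip_comm, hy, re_ip_real, ← hy, ← nr_sq, hmy] at h2
  have h3 : ∑ i, μ i * ∑ f, l f i = m ^ 2 := by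
    rw [hm2]; exact sum_congr rfl fun i _ => (sq _).symm
  rw [h3] at h1
  have h4 : 7 / 30 * m ^ 2 ≤ 5 / 2 * (((1 + η) ^ t - 1) * m) * m := by
    have := mul_le_mul_of_nonneg_right d3 hmpos.le
    change _ ≤ 5 / 2 * nr d * m at kc
    change _ ≤ _ + ∑ i, (((Jᴴ * N0 * J) *ᵥ y) i).re * μ i + _ at h1
    nlinarith
  have h5 : 0 < m ^ 2 := by positivity
  by_contra hcon
  push Not at hcon
  nlinarith

end Pool.Agent.MP_36f78e_lc.H24
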