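import Mathlib

/-!
Quantum verifiers with access to a unitary oracle.
-/

namespace Pool.Agent.MP_36f78e_lc.H24

open Matrix

/-- An operator on a register of qubits whose wires are indexed by `α`. -/
abbrev Op (α : Type) : Type := Matrix (α → Bool) (α → Bool) ℂ

/-- A quantum oracle: one operator on `n` qubits for each `n`. -/
abbrev Oracle : Type := (n : ℕ) → Op (Fin n)

/-- Controlled `A`: the control is wire `e none`, the targets are the wires `e (some i)`, and all
other wires are left alone. -/
def ctrlOn {α : Type} [Fintype α] [DecidableEq α] {n : ℕ} (e : Option (Fin n) ↪ α)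
    (A : Op (Fin n)) : Op α :=
  fun x y => if ∀ j, (∀ i, j ≠ e (some i)) → x j = y j then
    (if x (e none) = true then A else 1) (fun i => x (e (some i))) (fun i => y (e (some i)))
  else 0

/-- A verifier circuit for one fixed input: `p` witness qubits, `q` ancilla qubits, a list of gates
(an arbitrary operator on all qubits, or a controlled oracle call on chosen wires), and the set of
accepting outcomes of the final measurement in the computational basis. -/
structure Verifier where
  p : ℕ
  q : ℕ
  gates : List (Op (Fin p ⊕ Fin q) ⊕ (Σ n : ℕ, Option (Fin n) ↪ Fin p ⊕ Fin q))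
  acc : Finset (Fin p ⊕ Fin q → Bool)

/-- All oracle-free gates are unitary. -/
def Verifier.Valid (V : Verifier) : Prop :=
  ∀ A, Sum.inl A ∈ V.gates → A ∈ unitaryGroup (Fin V.p ⊕ Fin V.q → Bool) ℂ

/-- The number of oracle calls. -/
def Verifier.queries (V : Verifier) : ℕ := V.gates.countP Sum.isRight

/-- The operator computed by the circuit: the product of its gates. -/
noncomputable def Verifier.circuit (V : Verifier) (U : Oracle) : Op (Fin V.p ⊕ Fin V.q) :=
  (V.gates.map (Sum.elim id fun g => ctrlOn g.2 (U g.1))).prod

/-- The acceptance probability on the witness `w`, the ancillas starting in state zero. -/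
noncomputable def Verifier.accProb (V : Verifier) (U : Oracle) (w : (Fin V.p → Bool) → ℂ) : ℝ :=
  ∑ z ∈ V.acc, ‖(V.circuit U *ᵥ fun y =>
    if ∀ j, y (Sum.inr j) = false then w (fun i => y (Sum.inl i)) else 0) z‖ ^ 2

/-- Unit vectors. -/
def IsState {p : ℕ} (w : (Fin p → Bool) → ℂ) : Prop := ∑ y, ‖w y‖ ^ 2 = 1

/-- The reflection `1 - 2 |ψ⟩⟨ψ|` about the binary phase state
`ψ = 2^(-n/2) ∑ (-1)^(f x) |x⟩`. -/
noncomputable def phaseRefl {n : ℕ} (f : (Fin n → Bool) → Bool) : Op (Fin n) :=
  fun x y => (if x = y then 1 else 0) - 2 * (if f x = f y then 1 else -1) / 2 ^ n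

/-- The Hadamard gate on the single ancilla qubit. -/
noncomputable def hadAnc (n : ℕ) : Op (Fin n ⊕ Fin 1) :=
  fun x y => if ∀ i, x (Sum.inl i) = y (Sum.inl i) then
    (if x (Sum.inr 0) = true ∧ y (Sum.inr 0) = true then -1 else 1) / (√2 : ℝ) else 0

/-- The Hadamard test: Hadamard on the ancilla, the oracle on the `n` witness qubits controlled by
the ancilla, Hadamard again; accept when the ancilla reads one. -/
noncomputable def hadTest (n : ℕ) : Verifier where
  p := n
  q := 1
  gates := [Sum.inl (hadAnc n),
    Sum.inr ⟨n, ⟨fun o => o.elim (Sum.inr 0) Sum.inl, by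
      rintro (_ | a) (_ | b) h <;> simp_all⟩⟩,
    Sum.inl (hadAnc n)]
  acc := Finset.univ.filter fun z => z (Sum.inr 0) = true

end Pool.Agent.MP_36f78e_lc.H24
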