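import Mathlib
import Pool.Agent.MP_36f78e_lc.H24.Defs
import Pool.Agent.MP_36f78e_lc.H24.Core

/-!
Controlled gates.
-/

set_option linter.unusedSectionVars false

namespace Pool.Agent.MP_36f78e_lc.H24

open Finset Matrix

variable {α : Type} [Fintype α] [DecidableEq α] {n : ℕ}

/-- Split a basis state into the target wires and the rest. -/
noncomputable def spl (e : Option (Fin n) ↪ α) :
    (α → Bool) ≃ (Fin n → Bool) × ({j : α // ∀ i, j ≠ e (some i)} → Bool) where
  toFun x := (fun i => x (e (some i)), fun j => x j.1)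
  invFun z j := if h : ∀ i, j ≠ e (some i) then z.2 ⟨j, h⟩ else
    z.1 (Classical.choose (not_forall.1 h))
  left_inv x := by
    funext j
    by_cases h : ∀ i, j ≠ e (some i)
    · simp [h]
    · simp only [h, dif_neg, not_false_iff]
      have := Classical.choose_spec (not_forall.1 h)
      rw [not_not] at this
      rw [← this]
  right_inv z := by
    ext i
    · have h : ¬ ∀ i', e (some i) ≠ e (some i') := fun h => h i rfl
      simp only [h, dif_neg, not_false_iff]
      have := Classical.choose_spec (not_forall.1 h)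
      rw [not_not] at this
      rw [← Option.some_injective _ (e.injective this)]
    · simp [i.2]

lemma none_ne (e : Option (Fin n) ↪ α) : ∀ i, e none ≠ e (some i) :=
  fun _ h => by simpa using e.injective h

lemma ctrlOn_spl (e : Option (Fin n) ↪ α) (A : Op (Fin n)) (x y : α → Bool) :
    ctrlOn e A x y = if (spl e x).2 = (spl e y).2 then
      (if (spl e x).2 ⟨e none, none_ne e⟩ = true then A else 1) (spl e x).1 (spl e y).1
      else 0 := by
  unfold ctrlOn
  refine if_congr ?_ rfl rfl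
  constructor
  · intro h; funext j; exact h j.1 j.2
  · intro h j hj; exact congrFun h ⟨j, hj⟩

lemma ctrlOn_mulVec (e : Option (Fin n) ↪ α) (A : Op (Fin n)) (v : (α → Bool) → ℂ)
    (x : α → Bool) :
    (ctrlOn e A *ᵥ v) x = ((if (spl e x).2 ⟨e none, none_ne e⟩ = true then A else 1) *ᵥ
      fun y => v ((spl e).symm (y, (spl e x).2))) (spl e x).1 := by
  simp only [mulVec, dotProduct]
  rw [← Equiv.sum_comp (spl e).symm, Fintype.sum_prod_type]
  refine sum_congr rfl fun y _ => ?_
  simp only [ctrlOn_spl, Equiv.apply_symm_apply, ite_mul, zero_mul]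
  rw [sum_ite_eq]
  simp

lemma ctrlOn_conj (e : Option (Fin n) ↪ α) (A : Op (Fin n)) :
    (ctrlOn e A)ᴴ = ctrlOn e Aᴴ := by
  ext x y
  rw [conjTranspose_apply, ctrlOn_spl, ctrlOn_spl]
  by_cases h : (spl e x).2 = (spl e y).2
  · rw [if_pos h, if_pos h.symm, h]
    split_ifs
    · rfl
    · rw [← conjTranspose_apply, conjTranspose_one]
  · rw [if_neg h, if_neg (Ne.symm h), star_zero]

lemma ctrlOn_one (e : Option (Fin n) ↪ α) : ctrlOn e (1 : Op (Fin n)) = 1 := by
  ext x y
  rw [ctrlOn_spl, ite_self, one_apply, one_apply]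
  by_cases h : x = y
  · simp [h]
  · rw [if_neg h]
    split_ifs with h1 h2
    · exact absurd ((spl e).injective (Prod.ext h2 h1)) h
    · rfl
    · rfl

lemma nr_ctrlOn (e : Option (Fin n) ↪ α) (A : Op (Fin n)) (hA : ∀ v, nr (A *ᵥ v) ≤ nr v)
    (v : (α → Bool) → ℂ) : nr (ctrlOn e A *ᵥ v) ≤ nr v := by
  apply Real.sqrt_le_sqrt
  unfold nsq
  rw [← Equiv.sum_comp (spl e).symm, ← Equiv.sum_comp (spl e).symm, Fintype.sum_prod_type,
    Fintype.sum_prod_type, sum_comm, sum_comm (f := fun y r => ‖v ((spl e).symm (y, r))‖ ^ 2)]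
  refine sum_le_sum fun r _ => ?_
  simp only [ctrlOn_mulVec, Equiv.apply_symm_apply]
  split_ifs
  · exact nsq_le_of_nr _ _ (hA _)
  · simp

lemma phaseRefl_mulVec (f : (Fin n → Bool) → Bool) (v : (Fin n → Bool) → ℂ)
    (x : Fin n → Bool) :
    (phaseRefl f *ᵥ v) x = v x - 2 / 2 ^ n * sg (f x) * ∑ y, sg (f y) * v y := by
  simp only [mulVec, dotProduct, phaseRefl, sub_mul, sum_sub_distrib, ite_mul, one_mul, zero_mul,
    sum_ite_eq, mem_univ, if_true, mul_sum]
  congr 1
  refine sum_congr rfl fun y _ => ?_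
  cases f x <;> cases f y <;> simp [sg] <;> ring

lemma phaseRefl_conj (f : (Fin n → Bool) → Bool) : (phaseRefl f)ᴴ = phaseRefl f := by
  ext x y
  simp only [conjTranspose_apply, phaseRefl, eq_comm (a := y), eq_comm (a := f y)]
  split_ifs <;> simp

lemma sum_sg_sq (f : (Fin n → Bool) → Bool) :
    ∑ y, (sg (f y) : ℂ) * sg (f y) = 2 ^ n := by
  have : ∀ y, (sg (f y) : ℂ) * sg (f y) = 1 := fun y => by exact_mod_cast sg_sq (f y)
  simp [this]

lemma phaseRefl_mul_self (f : (Fin n → Bool) → Bool) : phaseRefl f * phaseRefl f = 1 := by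
  have : ∀ v, (phaseRefl f * phaseRefl f) *ᵥ v = (1 : Op (Fin n)) *ᵥ v := by
    intro v
    funext x
    rw [← mulVec_mulVec, one_mulVec, phaseRefl_mulVec]
    simp only [phaseRefl_mulVec, mul_sub, sum_sub_distrib]
    have h2 : ∑ y, (sg (f y) : ℂ) * (2 / 2 ^ n * sg (f y) * ∑ z, sg (f z) * v z) =
        2 * ∑ z, sg (f z) * v z := by
      have : ∀ y, (sg (f y) : ℂ) * (2 / 2 ^ n * sg (f y) * ∑ z, sg (f z) * v z) =
          (sg (f y) * sg (f y)) * (2 / 2 ^ n * ∑ z, sg (f z) * v z) := fun y => by ring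
      simp only [this, ← sum_mul, sum_sg_sq]
      field_simp
    rw [h2]; ring
  ext i j
  have := congrFun (this (Pi.single j 1)) i
  simpa using this

lemma phaseRefl_unitary (f : (Fin n → Bool) → Bool) :
    phaseRefl f ∈ unitaryGroup (Fin n → Bool) ℂ := by
  rw [mem_unitaryGroup_iff, star_eq_conjTranspose, phaseRefl_conj, phaseRefl_mul_self]

lemma isOrc_ctrlOn (e : Option (Fin n) ↪ α) (s : ℝ) (hs : s ^ 2 * 2 ^ n = 1) :
    IsOrc s (fun f : (Fin n → Bool) → Bool => ctrlOn e (phaseRefl f)) := by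
  refine ⟨_, inferInstance, spl e, fun r => r ⟨e none, none_ne e⟩, fun f v h => ?_⟩
  rw [ctrlOn_mulVec]
  have hs' : (s : ℂ) ^ 2 = 1 / 2 ^ n := by
    rw [eq_div_iff (pow_ne_zero _ two_ne_zero)]; exact_mod_cast hs
  split_ifs
  · rw [phaseRefl_mulVec, hs']
    simp only [Prod.mk.eta, Equiv.symm_apply_apply]
    ring
  · simp

end Pool.Agent.MP_36f78e_lc.H24
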