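import Mathlib
import Pool.Agent.MP_36f78e_lc.H24.Gate

/-!
The query lower bound for verifier circuits.
-/

set_option linter.unusedSectionVars false

namespace Pool.Agent.MP_36f78e_lc.H24

open Finset Matrix

section Step

variable {ι : Type} [Fintype ι] [DecidableEq ι] {H : Type} [Fintype H] [DecidableEq H]

/-- Multiplying by `G` costs at most `c` oracle calls. -/
def Step (ρ η : ℝ) (T c : ℕ) (G : (ι → Bool) → Matrix H H ℂ) (A : Matrix H H ℂ) : Prop :=
  ∀ t (F : (ι → Bool) → Matrix H H ℂ) B, t + c ≤ T → Hyb ρ η t F B →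
    Hyb ρ η (t + c) (fun f => G f * F f) (A * B)

lemma Step.mul {ρ η : ℝ} {T c c' : ℕ} {G G' : (ι → Bool) → Matrix H H ℂ} {A A' : Matrix H H ℂ}
    (h : Step ρ η T c G A) (h' : Step ρ η T c' G' A') :
    Step ρ η T (c' + c) (fun f => G f * G' f) (A * A') := by
  intro t F B ht hy
  have := h (t + c') _ _ (by omega) (h' t F B (by omega) hy)
  simpa only [Matrix.mul_assoc, add_assoc] using this

lemma Step.fixed (ρ η : ℝ) (T : ℕ) (A : Matrix H H ℂ) (hA : ∀ v, nr (A *ᵥ v) ≤ nr v) :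
    Step ρ η T 0 (fun _ : ι → Bool => A) A := fun _ _ _ _ hy => hy.fixed A hA

lemma Step.fixed1 (ρ η : ℝ) (hη : 0 ≤ η) (T : ℕ) (A : Matrix H H ℂ)
    (hA : ∀ v, nr (A *ᵥ v) ≤ nr v) :
    Step ρ η T 1 (fun _ : ι → Bool => A) A := fun _ _ _ _ hy => (hy.fixed A hA).succ hη

lemma Step.orc (s : ℝ) (hs : s ^ 2 * Fintype.card ι = 1) {ρ : ℝ} (hρ : 1 ≤ ρ) {ε : ℝ}
    (hε : 0 ≤ ε) (hε1 : ε ≤ 1) {T : ℕ} (hD : s ^ 2 * (2 * T : ℕ) ≤ ε ^ 2)
    (G : (ι → Bool) → Matrix H H ℂ) (hG : IsOrc s G) :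
    Step ρ ((2 * ρ ^ 2 + 4) * ε) T 1 G 1 := by
  intro t F B ht hy
  rw [Matrix.one_mul]
  exact hy.orc s hs hρ hε hε1
    (le_trans (mul_le_mul_of_nonneg_left (by exact_mod_cast (by omega)) (sq_nonneg s)) hD) G hG

end Step

lemma nr_of_unitary {κ : Type} [Fintype κ] [DecidableEq κ] (A : Matrix κ κ ℂ)
    (hA : A ∈ unitaryGroup κ ℂ) : (∀ v, nr (A *ᵥ v) ≤ nr v) ∧ ∀ v, nr (Aᴴ *ᵥ v) ≤ nr v := by
  constructor
  · intro v
    exact (nr_unitary A (mem_unitaryGroup_iff'.1 hA) v).le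
  · intro v
    refine (nr_unitary Aᴴ ?_ v).le
    rw [conjTranspose_conjTranspose]
    exact mem_unitaryGroup_iff.1 hA

/-- The matrix of a gate. -/
def gm {α : Type} [Fintype α] [DecidableEq α] (U : Oracle) :
    (Op α ⊕ (Σ n : ℕ, Option (Fin n) ↪ α)) → Op α :=
  Sum.elim id fun g => ctrlOn g.2 (U g.1)

lemma step_list {α : Type} [Fintype α] [DecidableEq α] (n : ℕ) (U : Oracle) (hn : U n = 1)
    (hU : ∀ m, U m ∈ unitaryGroup (Fin m → Bool) ℂ) (s : ℝ) (hs : s ^ 2 * 2 ^ n = 1) {ρ : ℝ}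
    (hρ : 1 ≤ ρ) {ε : ℝ} (hε : 0 ≤ ε) (hε1 : ε ≤ 1) {T : ℕ} (hD : s ^ 2 * (2 * T : ℕ) ≤ ε ^ 2)
    (gs : List (Op α ⊕ (Σ n : ℕ, Option (Fin n) ↪ α)))
    (hv : ∀ A, Sum.inl A ∈ gs → A ∈ unitaryGroup (α → Bool) ℂ) :
    Step ρ ((2 * ρ ^ 2 + 4) * ε) T (gs.countP Sum.isRight)
        (fun f => (gs.map (gm (Function.update U n (phaseRefl f)))).prod) (gs.map (gm U)).prod ∧
      Step ρ ((2 * ρ ^ 2 + 4) * ε) T (gs.countP Sum.isRight)
        (fun f => ((gs.map (gm (Function.update U n (phaseRefl f)))).prod)ᴴ)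
        ((gs.map (gm U)).prod)ᴴ := by
  have hη : 0 ≤ (2 * ρ ^ 2 + 4) * ε := by positivity
  have hs' : s ^ 2 * Fintype.card (Fin n → Bool) = 1 := by simpa using hs
  induction gs with
  | nil =>
    simp only [List.countP_nil, List.map_nil, List.prod_nil, conjTranspose_one]
    exact ⟨Step.fixed _ _ _ _ (by simp), Step.fixed _ _ _ _ (by simp)⟩
  | cons g gs ih =>
    obtain ⟨ih1, ih2⟩ := ih fun A hA => hv A (List.mem_cons_of_mem _ hA)
    have hg : Step ρ ((2 * ρ ^ 2 + 4) * ε) T (if g.isRight = true then 1 else 0)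
          (fun f => gm (Function.update U n (phaseRefl f)) g) (gm U g) ∧
        Step ρ ((2 * ρ ^ 2 + 4) * ε) T (if g.isRight = true then 1 else 0)
          (fun f => (gm (Function.update U n (phaseRefl f)) g)ᴴ) (gm U g)ᴴ := by
      rcases g with A | ⟨m, e⟩
      · have := nr_of_unitary A (hv A List.mem_cons_self)
        exact ⟨Step.fixed _ _ _ _ this.1, Step.fixed _ _ _ _ this.2⟩
      · simp only [gm, Sum.elim_inr, Sum.isRight_inr, if_true, ctrlOn_conj]
        by_cases h : m = n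
        · subst h
          simp only [Function.update_self, phaseRefl_conj, hn, conjTranspose_one, ctrlOn_one]
          have := Step.orc s hs' hρ hε hε1 hD _ (isOrc_ctrlOn e s hs)
          exact ⟨this, this⟩
        · simp only [Function.update_of_ne h]
          have := nr_of_unitary _ (hU m)
          exact ⟨Step.fixed1 _ _ hη _ _ (nr_ctrlOn e _ this.1),
            Step.fixed1 _ _ hη _ _ (nr_ctrlOn e _ this.2)⟩
    simp only [List.countP_cons, List.map_cons, List.prod_cons, conjTranspose_mul]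
    refine ⟨hg.1.mul ih1, ?_⟩
    rw [add_comm (List.countP _ _)]
    exact ih2.mul hg.2

/-- Embedding of witness basis states. -/
def emb (p q : ℕ) (i : Fin p → Bool) : Fin p ⊕ Fin q → Bool := Sum.elim i fun _ => false

/-- The isometry that appends the ancillas. -/
def Jm (p q : ℕ) : Matrix (Fin p ⊕ Fin q → Bool) (Fin p → Bool) ℂ :=
  fun y i => if y = emb p q i then 1 else 0

lemma emb_inj (p q : ℕ) : Function.Injective (emb p q) := fun _ _ h =>
  funext fun i => congrFun h (Sum.inl i)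

lemma Jm_conj (p q : ℕ) (z : (Fin p ⊕ Fin q → Bool) → ℂ) :
    (Jm p q)ᴴ *ᵥ z = fun i => z (emb p q i) := by
  funext i
  simp [mulVec, dotProduct, Jm, conjTranspose_apply, apply_ite]

lemma Jm_mulVec (p q : ℕ) (w : (Fin p → Bool) → ℂ) :
    Jm p q *ᵥ w = fun y =>
      if ∀ j, y (Sum.inr j) = false then w (fun i => y (Sum.inl i)) else 0 := by
  funext y
  simp only [mulVec, dotProduct, Jm, ite_mul, one_mul, zero_mul]
  split_ifs with h
  · rw [sum_eq_single (fun i => y (Sum.inl i))]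
    · rw [if_pos]
      funext j
      rcases j with j | j
      · rfl
      · exact h j
    · intro b _ hb
      rw [if_neg]
      rintro rfl
      exact hb rfl
    · simp
  · refine sum_eq_zero fun i _ => if_neg ?_
    rintro rfl
    exact h fun j => rfl

lemma nr_Jm (p q : ℕ) (w : (Fin p → Bool) → ℂ) : nr (Jm p q *ᵥ w) = nr w := by
  unfold nr
  rw [← re_ip_self, ip_mulVec, Jm_conj, Jm_mulVec, ← re_ip_self]
  simp [emb]

/-- The projector onto the accepting outcomes. -/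
def Pm (V : Verifier) : Op (Fin V.p ⊕ Fin V.q) := diagonal fun z => if z ∈ V.acc then 1 else 0

lemma accProb_eq (V : Verifier) (U : Oracle) (w : (Fin V.p → Bool) → ℂ) :
    V.accProb U w = (ip w (((Jm V.p V.q)ᴴ * ((V.circuit U)ᴴ * Pm V * V.circuit U) *
      Jm V.p V.q) *ᵥ w)).re := by
  rw [← mulVec_mulVec, ← mulVec_mulVec, ← mulVec_mulVec, ← mulVec_mulVec, ip_mulVec, ip_mulVec,
    conjTranspose_conjTranspose, conjTranspose_conjTranspose]
  unfold Verifier.accProb
  rw [← Jm_mulVec]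
  generalize V.circuit U *ᵥ Jm V.p V.q *ᵥ w = a
  simp only [ip, Pm, mulVec_diagonal, ite_mul, one_mul, zero_mul, mul_ite, mul_zero, sum_ite_mem,
    univ_inter, Complex.re_sum, Complex.conj_mul']
  exact sum_congr rfl fun z _ => by norm_cast

lemma nr_Pm (V : Verifier) (v : (Fin V.p ⊕ Fin V.q → Bool) → ℂ) : nr (Pm V *ᵥ v) ≤ nr v := by
  apply Real.sqrt_le_sqrt
  refine sum_le_sum fun z _ => ?_
  simp only [Pm, mulVec_diagonal]
  split_ifs <;> simp

lemma accProb_le_one (V : Verifier) (hV : V.Valid) (U : Oracle)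
    (hU : ∀ m, U m ∈ unitaryGroup (Fin m → Bool) ℂ) (w : (Fin V.p → Bool) → ℂ)
    (hw : nsq w = 1) : V.accProb U w ≤ 1 := by
  have h1 : ∀ gs : List (Op (Fin V.p ⊕ Fin V.q) ⊕ (Σ n : ℕ, Option (Fin n) ↪ Fin V.p ⊕ Fin V.q)),
      (∀ A, Sum.inl A ∈ gs → A ∈ unitaryGroup _ ℂ) →
      ∀ v, nr ((gs.map (gm U)).prod *ᵥ v) ≤ nr v := by
    intro gs hv
    induction gs with
    | nil => simp
    | cons g gs ih =>
      intro v
      rw [List.map_cons, List.prod_cons, ← mulVec_mulVec]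
      refine le_trans ?_ (ih (fun A hA => hv A (List.mem_cons_of_mem _ hA)) v)
      rcases g with A | ⟨m, e⟩
      · exact (nr_of_unitary A (hv A List.mem_cons_self)).1 _
      · exact nr_ctrlOn e _ (nr_of_unitary _ (hU m)).1 _
  have h2 := nsq_le_of_nr _ _ ((h1 V.gates hV (Jm V.p V.q *ᵥ w)).trans (nr_Jm _ _ w).le)
  rw [hw] at h2
  unfold Verifier.accProb
  rw [← Jm_mulVec]
  exact (sum_le_sum_of_subset_of_nonneg (subset_univ _) fun _ _ _ => sq_nonneg _).trans h2

/-- Completeness with a nearly optimal witness that has non-negative amplitudes. -/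
def Comp (V : Verifier) (U : Oracle) : Prop :=
  ∃ w : (Fin V.p → Bool) → ℝ, (∀ y, 0 ≤ w y) ∧ IsState (fun y => (w y : ℂ)) ∧
    2 / 3 ≤ V.accProb U (fun y => (w y : ℂ)) ∧
    ∀ w', IsState w' → V.accProb U w' ≤ V.accProb U (fun y => (w y : ℂ)) + 1 / (200 * 4 ^ V.p)

/-- Soundness. -/
def Sound (V : Verifier) (U : Oracle) : Prop := ∀ w, IsState w → V.accProb U w ≤ 1 / 3

theorem query_bound (V : Verifier) (hV : V.Valid) (n : ℕ) (U : Oracle) (hn : U n = 1)
    (hU : ∀ m, U m ∈ unitaryGroup (Fin m → Bool) ℂ) (hs : Sound V U)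
    (hc : ∀ f, Comp V (Function.update U n (phaseRefl f))) :
    2 ^ n ≤ 400000 * V.queries ^ 3 * (V.p + 1) ^ 2 := by
  by_contra hcon
  push Not at hcon
  set T := V.queries with hT
  have hN : (0 : ℝ) < 2 ^ n := by positivity
  have hcon' : (400000 * (T : ℝ) ^ 3 * (V.p + 1) ^ 2) < 2 ^ n := by exact_mod_cast hcon
  set s : ℝ := √((2 ^ n)⁻¹) with hsd
  have hs2 : s ^ 2 = (2 ^ n)⁻¹ := Real.sq_sqrt (by positivity)
  set ε : ℝ := √(s ^ 2 * (2 * (T + T) : ℕ)) with hεd
  have hε2 : ε ^ 2 = s ^ 2 * (2 * (T + T) : ℕ) := Real.sq_sqrt (by positivity)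
  have hε : 0 ≤ ε := Real.sqrt_nonneg _
  set k := V.p + 1 with hk
  set ρ : ℝ := √(4 * k) with hρd
  have hk1 : (1 : ℝ) ≤ k := by rw [hk]; push_cast; linarith [Nat.cast_nonneg (α := ℝ) V.p]
  have hkp : (k : ℝ) = V.p + 1 := by rw [hk]; push_cast; ring
  have hρ2 : ρ ^ 2 = 4 * k := Real.sq_sqrt (by positivity)
  have hρ : 1 ≤ ρ := Real.le_sqrt_of_sq_le (by linarith)
  have hεN : ε ^ 2 * 2 ^ n = 4 * T := by
    rw [hε2, hs2]; push_cast; field_simp; ring
  have hT0 : (0 : ℝ) ≤ T := Nat.cast_nonneg _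
  have hsmall : 288 * T * k * ε ≤ 1 := by
    have h1 : (288 * T * k * ε) ^ 2 * 2 ^ n ≤ 1 * 2 ^ n := by
      have : (288 * T * k * ε) ^ 2 * 2 ^ n = 331776 * T ^ 3 * (k : ℝ) ^ 2 := by
        calc _ = (288 * T * k) ^ 2 * (ε ^ 2 * 2 ^ n) := by ring
          _ = _ := by rw [hεN]; ring
      rw [this, hkp]
      have : (0 : ℝ) ≤ T ^ 3 * (V.p + 1) ^ 2 := by positivity
      nlinarith
    have h2 := le_of_mul_le_mul_right h1 hN
    nlinarith
  have hε1 : ε ≤ 1 := by
    rcases Nat.eq_zero_or_pos T with h | h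
    · have : ε ^ 2 = 0 := by rw [hε2, h]; simp
      rw [pow_eq_zero_iff two_ne_zero |>.1 this]; norm_num
    · have h1 : (1 : ℝ) ≤ T := by exact_mod_cast h
      have h2 : 1 ≤ (T : ℝ) * k := by nlinarith
      nlinarith
  obtain ⟨s1, s2⟩ := step_list n U hn hU s (by rw [hs2]; field_simp) hρ hε hε1 hε2.ge V.gates hV
  have s3 := (s2.mul (Step.fixed _ _ _ _ (nr_Pm V))).mul s1 0 _ _ (by
    simp only [zero_add]; exact le_rfl) (Hyb.one _ _)
  simp only [Matrix.mul_one, zero_add] at s3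
  have hP : (Pm V)ᴴ = Pm V := by
    unfold Pm
    rw [diagonal_conjTranspose]
    congr 1
    funext z
    simp [apply_ite]
  have key := core_abstract (emb V.p V.q) (emb_inj _ _) (Jm V.p V.q) (Jm_conj _ _) (nr_Jm _ _)
    k (by omega) (by
      rw [hk, pow_succ, mul_comm]
      simp only [Fintype.card_pi, Fintype.card_bool, prod_const, card_univ, Fintype.card_fin]
      exact Nat.mul_le_mul_right _ (Nat.pow_le_pow_left (by norm_num) _)) ρ hρ2 _ _
    (fun f => (V.circuit (Function.update U n (phaseRefl f)))ᴴ * Pm V *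
      V.circuit (Function.update U n (phaseRefl f))) ((V.circuit U)ᴴ * Pm V * V.circuit U)
    (fun f => by
      rw [conjTranspose_mul, conjTranspose_mul, conjTranspose_conjTranspose, hP,
        Matrix.mul_assoc]) s3 (1 / (200 * 4 ^ V.p)) (by positivity) (by
      simp only [Fintype.card_pi, Fintype.card_bool, prod_const, card_univ, Fintype.card_fin]
      push_cast
      rw [← pow_mul, mul_comm V.p 2, pow_mul]
      norm_num
      field_simp
      rfl)
    (fun f w => by rw [← accProb_eq]; exact sum_nonneg fun _ _ => sq_nonneg _)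
    (fun f w hw => by
      rw [← accProb_eq]
      refine accProb_le_one V hV _ (fun m => ?_) w hw
      by_cases h : m = n
      · subst h; rw [Function.update_self]; exact phaseRefl_unitary f
      · rw [Function.update_of_ne h]; exact hU m)
    (fun w hw => by rw [← accProb_eq]; exact hs w hw)
    (fun f => by
      obtain ⟨w, w0, w1, w2, w3⟩ := hc f
      refine ⟨w, w0, w1, ?_, fun w' hw' => ?_⟩
      · rw [← accProb_eq]; exact w2
      · rw [← accProb_eq, ← accProb_eq]; exact w3 w' hw')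
  change 7 / 75 ≤ (1 + (2 * ρ ^ 2 + 4) * ε) ^ (T + T) - 1 at key
  set η := (2 * ρ ^ 2 + 4) * ε with hη
  have hη0 : 0 ≤ η := by positivity
  have h1 : ((T + T : ℕ) : ℝ) * η ≤ 1 / 12 := by
    rw [hη, hρ2]; push_cast
    have : 0 ≤ T * ε := mul_nonneg hT0 hε
    nlinarith
  have h2 : (1 + η) ^ (T + T) ≤ Real.exp (1 / 12) := by
    calc (1 + η) ^ (T + T) ≤ Real.exp η ^ (T + T) :=
          pow_le_pow_left₀ (by linarith) (by linarith [Real.add_one_le_exp η]) _
      _ = Real.exp (((T + T : ℕ) : ℝ) * η) := (Real.exp_nat_mul _ _).symm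
      _ ≤ _ := Real.exp_le_exp.2 h1
  have h3 : Real.exp (1 / 12) ≤ 12 / 11 := by
    have := Real.exp_bound_div_one_sub_of_interval (x := 1 / 12) (by norm_num) (by norm_num)
    linarith
  linarith

end Pool.Agent.MP_36f78e_lc.H24
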