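import Mathlib
import Pool.Agent.MP_36f78e_lc.H24.Circuit

/-!
The Hadamard test.
-/

set_option linter.unusedSectionVars false

namespace Pool.Agent.MP_36f78e_lc.H24

open Finset Matrix

variable {n : ℕ}

/-- A basis state of the witness register and the single ancilla. -/
def pr (a : Fin n → Bool) (b : Bool) : Fin n ⊕ Fin 1 → Bool := Sum.elim a fun _ => b

/-- The splitting as an equivalence. -/
def prE (n : ℕ) : (Fin n → Bool) × Bool ≃ (Fin n ⊕ Fin 1 → Bool) where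
  toFun z := pr z.1 z.2
  invFun x := (fun i => x (Sum.inl i), x (Sum.inr 0))
  left_inv _ := rfl
  right_inv x := by
    funext j
    rcases j with j | j
    · rfl
    · rw [Subsingleton.elim j 0]; rfl

lemma sum_pr {M : Type*} [AddCommMonoid M] (F : (Fin n ⊕ Fin 1 → Bool) → M) :
    ∑ y, F y = ∑ a, (F (pr a true) + F (pr a false)) := by
  rw [← Equiv.sum_comp (prE n), Fintype.sum_prod_type]
  simp [prE]

lemma had_mulVec (v : (Fin n ⊕ Fin 1 → Bool) → ℂ) (a : Fin n → Bool) (b : Bool) :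
    (hadAnc n *ᵥ v) (pr a b) =
      (v (pr a false) + (if b = true then -1 else 1) * v (pr a true)) / (√2 : ℝ) := by
  simp only [mulVec, dotProduct]
  rw [sum_pr, sum_eq_single a]
  · cases b <;> simp [hadAnc, pr] <;> ring
  · intro c _ hc
    have : ¬ ∀ i, a i = c i := fun h => hc (funext h).symm
    simp [hadAnc, pr, this]
  · simp

lemma sqrt_two_sq : ((√2 : ℝ) : ℂ) * (√2 : ℝ) = 2 := by
  norm_cast; exact Real.mul_self_sqrt (by norm_num)

lemma sqrt_two_ne : ((√2 : ℝ) : ℂ) ≠ 0 := by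
  intro h
  have := sqrt_two_sq
  rw [h] at this
  norm_num at this

lemma had_unitary (n : ℕ) : hadAnc n ∈ unitaryGroup (Fin n ⊕ Fin 1 → Bool) ℂ := by
  have h1 : (hadAnc n)ᴴ = hadAnc n := by
    ext x y
    simp only [conjTranspose_apply, hadAnc, eq_comm (a := y (Sum.inl _)),
      and_comm (a := y (Sum.inr 0) = true)]
    split_ifs <;> simp
  have h2 : ∀ v, (hadAnc n * hadAnc n) *ᵥ v = (1 : Op (Fin n ⊕ Fin 1)) *ᵥ v := by
    intro v
    funext x
    obtain ⟨⟨a, b⟩, rfl⟩ := (prE n).surjective x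
    change _ = (1 *ᵥ v) (pr a b)
    rw [← mulVec_mulVec, one_mulVec]
    change (hadAnc n *ᵥ _) (pr a b) = _
    rw [had_mulVec, had_mulVec, had_mulVec, div_eq_iff sqrt_two_ne, ← mul_div_assoc, ← add_div,
      div_eq_iff sqrt_two_ne, mul_assoc, sqrt_two_sq]
    cases b <;> simp <;> ring
  rw [mem_unitaryGroup_iff, star_eq_conjTranspose, h1]
  ext i j
  have := congrFun (h2 (Pi.single j 1)) i
  simpa using this

/-- The wires of the oracle call in the Hadamard test. -/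
def e0 (n : ℕ) : Option (Fin n) ↪ Fin n ⊕ Fin 1 :=
  ⟨fun o => o.elim (Sum.inr 0) Sum.inl, by rintro (_ | a) (_ | b) h <;> simp_all⟩

lemma hadTest_valid (n : ℕ) : (hadTest n).Valid := by
  intro (A : Op (Fin n ⊕ Fin 1)) hA
  have hA' : (Sum.inl A : Op (Fin n ⊕ Fin 1) ⊕ (Σ m : ℕ, Option (Fin m) ↪ Fin n ⊕ Fin 1)) ∈
      [Sum.inl (hadAnc n), Sum.inr ⟨n, e0 n⟩, Sum.inl (hadAnc n)] := hA
  simp only [List.mem_cons, Sum.inl.injEq, reduceCtorEq, List.not_mem_nil, or_false,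
    false_or, or_self] at hA'
  rw [hA']
  exact had_unitary n

lemma ctrl_e0 (A : Op (Fin n)) (v : (Fin n ⊕ Fin 1 → Bool) → ℂ) (a : Fin n → Bool) (b : Bool) :
    (ctrlOn (e0 n) A *ᵥ v) (pr a b) =
      ((if b = true then A else 1) *ᵥ fun c => v (pr c b)) a := by
  simp only [mulVec, dotProduct]
  rw [sum_pr]
  refine sum_congr rfl fun c _ => ?_
  have h1 : ∀ i, e0 n (some i) = Sum.inl i := fun _ => rfl
  have h2 : e0 n none = Sum.inr 0 := rfl
  cases b
  · simp [ctrlOn, h1, h2, pr]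
    left; rfl
  · simp [ctrlOn, h1, h2, pr]

lemma hadTest_acc (U : Oracle) (w : (Fin n → Bool) → ℂ) :
    (hadTest n).accProb U w = ∑ a, ‖(w a - (U n *ᵥ w) a) / 2‖ ^ 2 := by
  have hc : (hadTest n).circuit U = hadAnc n * (ctrlOn (e0 n) (U n) * hadAnc n) := by
    change hadAnc n * (ctrlOn (e0 n) (U n) * (hadAnc n * 1)) = _
    rw [Matrix.mul_one]
  unfold Verifier.accProb
  rw [hc]
  change ∑ z ∈ univ.filter (fun z : Fin n ⊕ Fin 1 → Bool => z (Sum.inr 0) = true),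
    ‖((hadAnc n * (ctrlOn (e0 n) (U n) * hadAnc n)) *ᵥ fun y : Fin n ⊕ Fin 1 → Bool =>
      if ∀ j, y (Sum.inr j) = false then w (fun i => y (Sum.inl i)) else 0) z‖ ^ 2 = _
  rw [sum_filter, sum_pr]
  refine sum_congr rfl fun a _ => ?_
  rw [← mulVec_mulVec, ← mulVec_mulVec, had_mulVec, ctrl_e0, ctrl_e0]
  simp only [had_mulVec]
  have e1 : ∀ c : Fin n → Bool, (fun i => pr c false (Sum.inl i)) = c := fun c => rfl
  simp only [pr, Sum.elim_inr, Sum.elim_inl, implies_true, if_true, Bool.true_eq_false,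
    forall_const, if_false, mul_zero, add_zero, Bool.false_eq_true, one_mulVec]
  congr 2
  have e2 : (fun c : Fin n → Bool => w c / ((√2 : ℝ) : ℂ)) = (((√2 : ℝ) : ℂ)⁻¹) • w := by
    funext c; simp [div_eq_inv_mul]
  rw [e2, mulVec_smul, Pi.smul_apply, smul_eq_mul, div_eq_iff sqrt_two_ne]
  have := sqrt_two_ne
  field_simp
  rw [sq, sqrt_two_sq]; ring

lemma hadTest_no (U : Oracle) (h : U n = 1) (w : (Fin n → Bool) → ℂ) :
    (hadTest n).accProb U w = 0 := by
  rw [hadTest_acc, h]; simp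

lemma hadTest_yes (U : Oracle) (f : (Fin n → Bool) → Bool) (h : U n = phaseRefl f) :
    ∃ w : (Fin n → Bool) → ℂ, IsState w ∧ (hadTest n).accProb U w = 1 := by
  set s : ℝ := √((2 ^ n)⁻¹) with hsd
  have hs2 : s ^ 2 = (2 ^ n)⁻¹ := Real.sq_sqrt (by positivity)
  have hw : ∑ a : Fin n → Bool, ‖((s * sg (f a) : ℝ) : ℂ)‖ ^ 2 = 1 := by
    have : ∀ a, ‖((s * sg (f a) : ℝ) : ℂ)‖ ^ 2 = (2 ^ n)⁻¹ := fun a => by
      rw [Complex.norm_real, Real.norm_eq_abs, sq_abs, mul_pow, hs2, sq, sg_sq, mul_one]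
    simp only [this]
    simp
  refine ⟨fun a => ((s * sg (f a) : ℝ) : ℂ), hw, ?_⟩
  rw [hadTest_acc, h, ← hw]
  refine sum_congr rfl fun a _ => ?_
  rw [phaseRefl_mulVec]
  have : ∑ y, (sg (f y) : ℂ) * ((s * sg (f y) : ℝ) : ℂ) = s * 2 ^ n := by
    rw [← sum_sg_sq f, mul_sum]
    exact sum_congr rfl fun y _ => by push_cast; ring
  rw [this]
  congr 2
  push_cast
  field_simp
  ring

end Pool.Agent.MP_36f78e_lc.H24
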