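import Mathlib
import Pool.Agent.MP_36f78e_lc.H24.Had

/-!
Diagonalisation.
-/

set_option linter.unusedSectionVars false

namespace Pool.Agent.MP_36f78e_lc.H24

open Finset Matrix

lemma circuit_congr (V : Verifier) :
    ∃ b : ℕ, ∀ U U' : Oracle, (∀ m < b, U m = U' m) → V.circuit U = V.circuit U' := by
  unfold Verifier.circuit
  generalize V.gates = gs
  induction gs with
  | nil => exact ⟨0, fun _ _ _ => rfl⟩
  | cons g gs ih =>
    obtain ⟨b, hb⟩ := ih
    rcases g with A | ⟨m, e⟩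
    · refine ⟨b, fun U U' h => ?_⟩
      simp only [List.map_cons, List.prod_cons, hb U U' h, Sum.elim_inl]
    · refine ⟨max b (m + 1), fun U U' h => ?_⟩
      simp only [List.map_cons, List.prod_cons, Sum.elim_inr]
      rw [hb U U' fun j hj => h j (lt_max_of_lt_left hj), h m (lt_max_of_lt_right (by omega))]

/-- Oracles made of identities and phase reflections. -/
def Good (U : Oracle) : Prop := ∀ n, U n = 1 ∨ ∃ f, U n = phaseRefl f

lemma Good.unitary {U : Oracle} (h : Good U) (m : ℕ) : U m ∈ unitaryGroup (Fin m → Bool) ℂ := by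
  rcases h m with h | ⟨f, h⟩
  · rw [h]; exact one_mem _
  · rw [h]; exact phaseRefl_unitary f

lemma phaseRefl_ne_one {n : ℕ} (f : (Fin n → Bool) → Bool) : phaseRefl f ≠ 1 := by
  intro h
  have := congrFun (congrFun h fun _ => false) fun _ => false
  simp [phaseRefl] at this

/-- The verifier is wrong on the input. -/
def Wrong (V : Verifier) (n : ℕ) (U : Oracle) : Prop :=
  ¬ ((U n ≠ 1 → Comp V U) ∧ (U n = 1 → Sound V U))

lemma stage (V : List Bool → Verifier) (hu : ∀ x, (V x).Valid)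
    (hc : ∀ m, ∃ x : List Bool, m ≤ x.length ∧
      400000 * (V x).queries ^ 3 * ((V x).p + 1) ^ 2 < 2 ^ x.length)
    (U : Oracle) (b : ℕ) (hU : Good U) (hb : ∀ m, b ≤ m → U m = 1) :
    ∃ (U' : Oracle) (b' : ℕ), Good U' ∧ (∀ m, b' ≤ m → U' m = 1) ∧ b < b' ∧
      (∀ m < b, U' m = U m) ∧
      ∃ x : List Bool, ∀ U'' : Oracle, (∀ m < b', U'' m = U' m) → Wrong (V x) x.length U'' := by
  obtain ⟨x, hx, hcost⟩ := hc b
  obtain ⟨c, hcc⟩ := circuit_congr (V x)
  have transfer : ∀ U' : Oracle, Wrong (V x) x.length U' → ∀ U'' : Oracle,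
      (∀ m < max c (x.length + 1), U'' m = U' m) → Wrong (V x) x.length U'' := by
    intro U' hw U'' h
    have h1 := hcc U'' U' fun m hm => h m (lt_max_of_lt_left hm)
    have h2 := h x.length (lt_max_of_lt_right (by omega))
    unfold Wrong Comp Sound Verifier.accProb at hw ⊢
    rw [h1, h2]
    exact hw
  have hlt : b < max c (x.length + 1) := lt_max_of_lt_right (by omega)
  by_cases hs : Sound (V x) U
  · have : ∃ f, ¬ Comp (V x) (Function.update U x.length (phaseRefl f)) := by
      by_contra hcon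
      push Not at hcon
      have := query_bound (V x) (hu x) x.length U (hb _ hx) hU.unitary hs hcon
      omega
    obtain ⟨f, hf⟩ := this
    refine ⟨Function.update U x.length (phaseRefl f), max c (x.length + 1), fun m => ?_,
      fun m hm => ?_, hlt, fun m hm => ?_, x, transfer _ fun h => hf (h.1 ?_)⟩
    · by_cases h : m = x.length
      · subst h; exact Or.inr ⟨f, by simp⟩
      · rw [Function.update_of_ne h]; exact hU m
    · have := le_of_max_le_right hm
      rw [Function.update_of_ne (by omega)]; exact hb m (by omega)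
    · rw [Function.update_of_ne (by omega)]
    · rw [Function.update_self]; exact phaseRefl_ne_one f
  · exact ⟨U, max c (x.length + 1), hU, fun m hm => hb m (by omega), hlt, fun _ _ => rfl, x,
      transfer _ fun h => hs (h.2 (hb _ hx))⟩

theorem diag (V : ℕ → List Bool → Verifier) (hu : ∀ k x, (V k x).Valid)
    (hc : ∀ k m, ∃ x : List Bool, m ≤ x.length ∧
      400000 * (V k x).queries ^ 3 * ((V k x).p + 1) ^ 2 < 2 ^ x.length) :
    ∃ U : Oracle, Good U ∧ ∀ k, ∃ x : List Bool, Wrong (V k x) x.length U := by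
  have step : ∀ k, ∀ z : {z : Oracle × ℕ // Good z.1 ∧ ∀ m, z.2 ≤ m → z.1 m = 1},
      ∃ z' : {z : Oracle × ℕ // Good z.1 ∧ ∀ m, z.2 ≤ m → z.1 m = 1}, z.1.2 < z'.1.2 ∧
      (∀ m < z.1.2, z'.1.1 m = z.1.1 m) ∧ ∃ x : List Bool, ∀ U'' : Oracle,
        (∀ m < z'.1.2, U'' m = z'.1.1 m) → Wrong (V k x) x.length U'' := by
    intro k z
    obtain ⟨U', b', h1, h2, h3, h4, h5⟩ := stage (V k) (hu k) (hc k) z.1.1 z.1.2 z.2.1 z.2.2
    exact ⟨⟨(U', b'), h1, h2⟩, h3, h4, h5⟩
  choose nx n1 n2 n3 using step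
  let s : ℕ → {z : Oracle × ℕ // Good z.1 ∧ ∀ m, z.2 ≤ m → z.1 m = 1} := fun k =>
    Nat.rec ⟨(fun _ => 1, 0), fun _ => Or.inl rfl, fun _ _ => rfl⟩ (fun k z => nx k z) k
  have hs : ∀ k, s (k + 1) = nx k (s k) := fun _ => rfl
  have mono : StrictMono fun k => (s k).1.2 := strictMono_nat_of_lt_succ fun k => n1 k (s k)
  have stab : ∀ j k m, j ≤ k → m < (s j).1.2 → (s k).1.1 m = (s j).1.1 m := by
    intro j k m hjk hm
    induction k, hjk using Nat.le_induction with
    | base => rfl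
    | succ k hjk ih => rw [hs, n2 k (s k) m (hm.trans_le (mono.monotone hjk)), ih]
  refine ⟨fun m => (s (m + 1)).1.1 m, fun m => (s (m + 1)).2.1 m, fun k => ?_⟩
  obtain ⟨x, hx⟩ := n3 k (s k)
  refine ⟨x, hx _ fun m hm => ?_⟩
  rw [← hs] at hm ⊢
  have h1 : m < (s (m + 1)).1.2 := lt_of_lt_of_le (Nat.lt_succ_self m) (mono.le_apply (x := m + 1))
  rcases le_total (m + 1) (k + 1) with h | h
  · exact (stab _ _ m h h1).symm
  · exact stab _ _ m h hm

end Pool.Agent.MP_36f78e_lc.H24
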